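import Pool.Agent.E8helper15.Ico.Forms

/-! # Local estimates -/

set_option autoImplicit false

namespace Pool.Agent.E8helper15.Ico

/-- homogeneous functions of degree `d` -/
def Hom (d : ℕ) (f : ℂ × ℂ → ℝ) : Prop :=
  ∀ (c : ℝ) (p : ℂ × ℂ), 0 ≤ c → f ((c : ℝ) • p) = c ^ d * f p

theorem hom_unit {d : ℕ} {f : ℂ × ℂ → ℝ} (h : Hom d f) {p : ℂ × ℂ} (hp : p ≠ 0) :
    f p = ‖p‖ ^ d * f ((‖p‖⁻¹ : ℝ) • p) ∧ (‖p‖⁻¹ : ℝ) • p ∈ Metric.sphere (0 : ℂ × ℂ) 1 := by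
  have h0 : 0 < ‖p‖ := norm_pos_iff.2 hp
  constructor
  · rw [← h _ _ h0.le, smul_smul, mul_inv_cancel₀ h0.ne', one_smul]
  · rw [mem_sphere_zero_iff_norm, norm_smul, Real.norm_of_nonneg (by positivity),
      inv_mul_cancel₀ h0.ne']

theorem hom_zero {d : ℕ} (hd : d ≠ 0) {f : ℂ × ℂ → ℝ} (h : Hom d f) : f 0 = 0 := by
  have := h 0 0 le_rfl
  rwa [zero_smul, zero_pow hd, zero_mul] at this

theorem hom_upper {d : ℕ} (hd : d ≠ 0) {f : ℂ × ℂ → ℝ} (hf : Continuous f) (h : Hom d f) :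
    ∃ C : ℝ, 0 < C ∧ ∀ p, f p ≤ C * ‖p‖ ^ d := by
  obtain ⟨C, hC⟩ := (isCompact_sphere (0 : ℂ × ℂ) 1).bddAbove_image hf.continuousOn
  refine ⟨max C 1, by positivity, fun p => ?_⟩
  by_cases hp : p = 0
  · rw [hp, hom_zero hd h, norm_zero, zero_pow hd, mul_zero]
  · obtain ⟨h1, h2⟩ := hom_unit h hp
    rw [h1, mul_comm]
    have h3 := hC (Set.mem_image_of_mem f h2)
    have : f ((‖p‖⁻¹ : ℝ) • p) ≤ max C 1 := h3.trans (le_max_left _ _)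
    gcongr

theorem hom_lower {d : ℕ} (hd : d ≠ 0) {f : ℂ × ℂ → ℝ} (hf : Continuous f) (h : Hom d f)
    (hpos : ∀ p, p ≠ 0 → 0 < f p) : ∃ c : ℝ, 0 < c ∧ ∀ p, c * ‖p‖ ^ d ≤ f p := by
  have hne : (Metric.sphere (0 : ℂ × ℂ) 1).Nonempty := by
    refine ⟨(1, 0), ?_⟩
    rw [mem_sphere_zero_iff_norm, Prod.norm_def]
    simp
  obtain ⟨e, he, hmin⟩ := (isCompact_sphere (0 : ℂ × ℂ) 1).exists_isMinOn hne hf.continuousOn
  have he0 : e ≠ 0 := by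
    rintro rfl
    rw [mem_sphere_zero_iff_norm, norm_zero] at he
    exact zero_ne_one he
  refine ⟨f e, hpos e he0, fun p => ?_⟩
  by_cases hp : p = 0
  · rw [hp, hom_zero hd h, norm_zero, zero_pow hd, mul_zero]
  · obtain ⟨h1, h2⟩ := hom_unit h hp
    rw [h1, mul_comm]
    have h3 : f e ≤ f ((‖p‖⁻¹ : ℝ) • p) := hmin h2
    gcongr

theorem smul_fst (c : ℝ) (p : ℂ × ℂ) : (c • p).1 = (c : ℂ) * p.1 := by
  rw [Prod.smul_fst, Complex.real_smul]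

theorem smul_snd (c : ℝ) (p : ℂ × ℂ) : (c • p).2 = (c : ℂ) * p.2 := by
  rw [Prod.smul_snd, Complex.real_smul]

theorem norm_cast_pow {c : ℝ} (hc : 0 ≤ c) (d : ℕ) : ‖(c : ℂ) ^ d‖ = c ^ d := by
  rw [norm_pow, Complex.norm_real, Real.norm_of_nonneg hc]

theorem hom_of {d : ℕ} {g : ℂ → ℂ → ℂ} (h : ∀ c x y : ℂ, g (c * x) (c * y) = c ^ d * g x y) :
    Hom d (fun p => ‖g p.1 p.2‖) := by
  intro c p hc
  simp only [smul_fst, smul_snd, h, norm_mul, norm_cast_pow hc]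

section
variable (r : ℂ)

theorem homF (c x y : ℂ) : F (c * x) (r * (c * y)) = c ^ 12 * F x (r * y) := by
  unfold F; ring

theorem homH (c x y : ℂ) : H (c * x) (r * (c * y)) = c ^ 20 * H x (r * y) := by
  unfold H; ring

theorem homT (c x y : ℂ) : T (c * x) (r * (c * y)) = c ^ 30 * T x (r * y) := by
  unfold T; ring

theorem homG (c x y : ℂ) : G r (c * x) (c * y) = c ^ 9 * G r x y := by
  unfold G; ring

theorem contF : Continuous fun p : ℂ × ℂ => ‖F p.1 (r * p.2)‖ := by unfold F; fun_prop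

theorem contH : Continuous fun p : ℂ × ℂ => ‖H p.1 (r * p.2)‖ := by unfold H; fun_prop

theorem contT : Continuous fun p : ℂ × ℂ => ‖T p.1 (r * p.2)‖ := by unfold T; fun_prop

theorem contG : Continuous fun p : ℂ × ℂ => ‖G r p.1 p.2‖ := by unfold G; fun_prop

variable {r}

theorem no_zero (hr : r ≠ 0) {p : ℂ × ℂ} (hp : p ≠ 0) (hF : F p.1 (r * p.2) = 0)
    (hH : H p.1 (r * p.2) = 0) : False := by
  have h1 := bez p.1 (r * p.2)
  rw [hF, hH] at h1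
  have h2 : p.1 = 0 ∨ p.2 = 0 := by
    by_contra hcon
    push Not at hcon
    have : (3125 : ℂ) * p.1 ^ 11 * (r * p.2) ^ 11 ≠ 0 :=
      mul_ne_zero (mul_ne_zero (by norm_num) (pow_ne_zero _ hcon.1))
        (pow_ne_zero _ (mul_ne_zero hr hcon.2))
    apply this
    rw [h1]
    ring
  rcases h2 with h2 | h2
  · unfold H at hH
    rw [h2] at hH
    have h3 : (r * p.2) ^ 20 = 0 := by linear_combination -hH
    have h4 : p.2 = 0 := by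
      have := (pow_eq_zero_iff (by norm_num)).1 h3
      exact (mul_eq_zero.1 this).resolve_left hr
    exact hp (Prod.ext h2 h4)
  · unfold H at hH
    rw [h2] at hH
    have h3 : p.1 ^ 20 = 0 := by linear_combination -hH
    have h4 : p.1 = 0 := (pow_eq_zero_iff (by norm_num)).1 h3
    exact hp (Prod.ext h4 h2)

/-- the size of the triple -/
noncomputable def siz (r : ℂ) (p : ℂ × ℂ) : ℝ :=
  max ‖(1728 : ℂ) * F p.1 (r * p.2) ^ 5‖ (max ‖-T p.1 (r * p.2) ^ 2‖ ‖-H p.1 (r * p.2) ^ 3‖)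

theorem siz_lower (hr : r ≠ 0) : ∃ c : ℝ, 0 < c ∧ ∀ p, c * ‖p‖ ^ 60 ≤ siz r p := by
  refine hom_lower (by norm_num) ?_ ?_ ?_
  · unfold siz F T H; fun_prop
  · intro c p hc
    unfold siz
    simp only [smul_fst, smul_snd, homF, homT, homH]
    have e1 : (1728 : ℂ) * ((c : ℂ) ^ 12 * F p.1 (r * p.2)) ^ 5 =
        (c : ℂ) ^ 60 * (1728 * F p.1 (r * p.2) ^ 5) := by ring
    have e2 : -((c : ℂ) ^ 30 * T p.1 (r * p.2)) ^ 2 = (c : ℂ) ^ 60 * (-T p.1 (r * p.2) ^ 2) := by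
      ring
    have e3 : -((c : ℂ) ^ 20 * H p.1 (r * p.2)) ^ 3 = (c : ℂ) ^ 60 * (-H p.1 (r * p.2) ^ 3) := by
      ring
    rw [e1, e2, e3, norm_mul ((c : ℂ) ^ 60), norm_mul ((c : ℂ) ^ 60), norm_mul ((c : ℂ) ^ 60),
      norm_cast_pow hc, ← mul_max_of_nonneg _ _ (pow_nonneg hc _),
      ← mul_max_of_nonneg _ _ (pow_nonneg hc _)]
  · intro p hp
    unfold siz
    by_cases hF : F p.1 (r * p.2) = 0
    · have hH : H p.1 (r * p.2) ≠ 0 := fun hH => no_zero hr hp hF hH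
      refine lt_max_of_lt_right (lt_max_of_lt_right ?_)
      rw [norm_neg]
      exact norm_pos_iff.2 (pow_ne_zero _ hH)
    · refine lt_max_of_lt_left ?_
      exact norm_pos_iff.2 (mul_ne_zero (by norm_num) (pow_ne_zero _ hF))

/-- near the cusps the first form is small -/
theorem near (hr : r ^ 2 + r = 1) {δ : ℝ} (hδ : 0 < δ) : ∃ η : ℝ, 0 < η ∧ ∀ p : ℂ × ℂ,
    ‖p.1‖ * ‖p.2‖ * ‖p.1 + p.2‖ ≤ η * ‖p‖ ^ 3 →
      ‖F p.1 (r * p.2)‖ ^ 5 ≤ δ * ‖H p.1 (r * p.2)‖ ^ 3 := by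
  have hr0 : r ≠ 0 := by
    rintro rfl
    norm_num at hr
  have hrp : 0 < ‖r‖ := norm_pos_iff.2 hr0
  obtain ⟨c, hc, hlow⟩ := hom_lower (d := 20) (by norm_num)
    (f := fun p => ‖F p.1 (r * p.2)‖ * ‖p‖ ^ 8 + ‖H p.1 (r * p.2)‖)
    (by
      have := contF r
      have := contH r
      fun_prop)
    (by
      intro c p hc
      simp only [smul_fst, smul_snd, homF, homH, norm_mul, norm_cast_pow hc, norm_smul,
        Real.norm_of_nonneg hc]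
      ring)
    (by
      intro p hp
      have hpp : 0 < ‖p‖ := norm_pos_iff.2 hp
      by_cases hF : F p.1 (r * p.2) = 0
      · have hH : H p.1 (r * p.2) ≠ 0 := fun hH => no_zero hr0 hp hF hH
        have := norm_pos_iff.2 hH
        positivity
      · have := norm_pos_iff.2 hF
        positivity)
  obtain ⟨C, hC, hup⟩ := hom_upper (d := 9) (by norm_num) (contG r)
    (hom_of (g := fun x y => G r x y) (homG r))
  -- `‖F‖ ≤ ‖r‖ η C ‖p‖ ^ 12`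
  set B : ℝ := ‖r‖ * C with hB
  have hBp : 0 < B := by positivity
  -- choose `η` with `B η ≤ c / 2` and `(B η) ^ 5 ≤ δ (c / 2) ^ 3`
  obtain ⟨κ, hκ, hκ1, hκ2⟩ : ∃ κ : ℝ, 0 < κ ∧ κ ≤ c / 2 ∧ κ ^ 5 ≤ δ * (c / 2) ^ 3 := by
    refine ⟨min (min 1 (c / 2)) (δ * (c / 2) ^ 3), by positivity, ?_, ?_⟩
    · exact (min_le_left _ _).trans (min_le_right _ _)
    · have h1 : min (min 1 (c / 2)) (δ * (c / 2) ^ 3) ≤ 1 :=
        (min_le_left _ _).trans (min_le_left _ _)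
      have h2 : 0 ≤ min (min 1 (c / 2)) (δ * (c / 2) ^ 3) := by positivity
      calc min (min 1 (c / 2)) (δ * (c / 2) ^ 3) ^ 5 ≤ min (min 1 (c / 2)) (δ * (c / 2) ^ 3) :=
            pow_le_of_le_one h2 h1 (by norm_num)
        _ ≤ δ * (c / 2) ^ 3 := min_le_right _ _
  refine ⟨κ / B, by positivity, fun p hp => ?_⟩
  have hF : ‖F p.1 (r * p.2)‖ ≤ κ * ‖p‖ ^ 12 := by
    rw [fac hr]
    calc ‖r * p.1 * p.2 * (p.1 + p.2) * G r p.1 p.2‖
        = ‖r‖ * (‖p.1‖ * ‖p.2‖ * ‖p.1 + p.2‖) * ‖G r p.1 p.2‖ := by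
          simp only [norm_mul]; ring
      _ ≤ ‖r‖ * (κ / B * ‖p‖ ^ 3) * (C * ‖p‖ ^ 9) := by
          have := hup p
          gcongr
      _ = κ * ‖p‖ ^ 12 := by
          rw [hB]
          field_simp
  have h1 := hlow p
  have h2 : c / 2 * ‖p‖ ^ 20 ≤ ‖H p.1 (r * p.2)‖ := by
    have h3 : ‖F p.1 (r * p.2)‖ * ‖p‖ ^ 8 ≤ c / 2 * ‖p‖ ^ 20 := by
      calc ‖F p.1 (r * p.2)‖ * ‖p‖ ^ 8 ≤ κ * ‖p‖ ^ 12 * ‖p‖ ^ 8 := by gcongr
        _ = κ * ‖p‖ ^ 20 := by ring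
        _ ≤ c / 2 * ‖p‖ ^ 20 := by gcongr
    linarith
  calc ‖F p.1 (r * p.2)‖ ^ 5 ≤ (κ * ‖p‖ ^ 12) ^ 5 := by gcongr
    _ = κ ^ 5 * ‖p‖ ^ 60 := by ring
    _ ≤ δ * (c / 2) ^ 3 * ‖p‖ ^ 60 := by gcongr
    _ = δ * (c / 2 * ‖p‖ ^ 20) ^ 3 := by ring
    _ ≤ δ * ‖H p.1 (r * p.2)‖ ^ 3 := by gcongr

end

/-- the cofactor `(c ^ (2 m) - a ^ (2 m)) / (-(a + c))` -/
def W {R : Type*} [CommRing R] (m : ℕ) (a c : R) : R :=
  -((∑ i ∈ Finset.range m, (c ^ 2) ^ i * (a ^ 2) ^ (m - 1 - i)) * (c - a))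

theorem W_mul {R : Type*} [CommRing R] (m : ℕ) (a c : R) :
    W m a c * -(a + c) = c ^ (2 * m) - a ^ (2 * m) := by
  have h := (Commute.all (c ^ 2) (a ^ 2)).geom_sum₂_mul m
  unfold W
  rw [pow_mul, pow_mul, ← h]
  ring

theorem mapW {R S : Type*} [CommRing R] [CommRing S] (φ : R →+* S) (m : ℕ) (a c : R) :
    φ (W m a c) = W m (φ a) (φ c) := by
  simp [W]

theorem W_upper (m : ℕ) (hm : m ≠ 0) : ∃ C : ℝ, 0 < C ∧ ∀ p : ℂ × ℂ,
    ‖W m p.1 p.2‖ ≤ C * ‖p‖ ^ (2 * m - 1) := by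
  refine hom_upper (by omega) ?_ ?_
  · unfold W; fun_prop
  · apply hom_of (g := fun x y => W m x y)
    intro c x y
    unfold W
    have h : ∀ i ∈ Finset.range m, ((c * y) ^ 2) ^ i * ((c * x) ^ 2) ^ (m - 1 - i) =
        c ^ (2 * m - 2) * ((y ^ 2) ^ i * (x ^ 2) ^ (m - 1 - i)) := by
      intro i hi
      rw [Finset.mem_range] at hi
      have e : 2 * m - 2 = 2 * i + 2 * (m - 1 - i) := by omega
      rw [e, pow_add, pow_mul, pow_mul, mul_pow, mul_pow, mul_pow, mul_pow]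
      ring
    rw [Finset.sum_congr rfl h, ← Finset.mul_sum]
    have e2 : 2 * m - 1 = (2 * m - 2) + 1 := by omega
    rw [e2, pow_succ]
    ring

end Pool.Agent.E8helper15.Ico
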