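import Pool.Agent.E8helper15.Ico.Forms
import Pool.Agent.E8helper15.Ico.Local
import Pool.Agent.Y382.Gold

/-! # The algebraic part -/

set_option autoImplicit false

namespace Pool.Agent.E8helper15.Ico

/-- division by the greatest common divisor -/
theorem lowest {R : Type*} [CommRing R] [IsDomain R] [IsPrincipalIdealRing R] {A B C D : R}
    (hD : D ≠ 0) (hs : A + B + C = 0) (hmem : D ∈ Ideal.span {A, B, C}) :
    ∃ g a b c : R, g ∣ D ∧ g * a = A ∧ g * b = B ∧ g * c = C ∧ a + b + c = 0 ∧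
      Ideal.span {a, b, c} = (⊤ : Ideal R) := by
  obtain ⟨g, hg⟩ := (IsPrincipalIdealRing.principal (Ideal.span {A, B, C})).principal
  rw [← Ideal.submodule_span_eq] at hg
  have hg' : Ideal.span {A, B, C} = Ideal.span {g} := hg
  have hA : A ∈ Ideal.span {g} := hg' ▸ Ideal.subset_span (by simp)
  have hB : B ∈ Ideal.span {g} := hg' ▸ Ideal.subset_span (by simp)
  have hC : C ∈ Ideal.span {g} := hg' ▸ Ideal.subset_span (by simp)
  rw [Ideal.mem_span_singleton] at hA hB hC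
  have hgD : g ∣ D := by
    rw [hg', Ideal.mem_span_singleton] at hmem
    exact hmem
  have hg0 : g ≠ 0 := by
    rintro rfl
    exact hD (zero_dvd_iff.1 hgD)
  obtain ⟨a, rfl⟩ := hA
  obtain ⟨b, rfl⟩ := hB
  obtain ⟨c, rfl⟩ := hC
  refine ⟨g, a, b, c, hgD, rfl, rfl, rfl, ?_, ?_⟩
  · have : g * (a + b + c) = 0 := by rw [← hs]; ring
    exact (mul_eq_zero.1 this).resolve_left hg0
  · rw [Ideal.eq_top_iff_one]
    have h1 : g ∈ Ideal.span {g * a, g * b, g * c} := by
      rw [hg']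
      exact Ideal.mem_span_singleton_self g
    rw [Ideal.mem_span_insert] at h1
    obtain ⟨u, z, hz, h1⟩ := h1
    rw [Ideal.mem_span_pair] at hz
    obtain ⟨v, w, hvw⟩ := hz
    have h2 : g * (u * a + v * b + w * c) = g * 1 := by
      rw [mul_one]
      nth_rewrite 2 [h1]
      rw [← hvw]
      ring
    have h3 := mul_left_cancel₀ hg0 h2
    rw [← h3]
    refine Ideal.add_mem _ (Ideal.add_mem _ ?_ ?_) ?_
    · exact Ideal.mul_mem_left _ _ (Ideal.subset_span (by simp))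
    · exact Ideal.mul_mem_left _ _ (Ideal.subset_span (by simp))
    · exact Ideal.mul_mem_left _ _ (Ideal.subset_span (by simp))

theorem cop_ac {R : Type*} [CommRing R] {a b c : R} (hs : a + b + c = 0)
    (h : Ideal.span {a, b, c} = (⊤ : Ideal R)) : IsCoprime a c := by
  have h1 : (1 : R) ∈ Ideal.span {a, b, c} := by rw [h]; exact Submodule.mem_top
  rw [Ideal.mem_span_insert] at h1
  obtain ⟨u, z, hz, h1⟩ := h1
  rw [Ideal.mem_span_pair] at hz
  obtain ⟨v, w, hvw⟩ := hz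
  have hb : b = -(a + c) := by linear_combination hs
  refine ⟨u - v, w - v, ?_⟩
  rw [h1, ← hvw, hb]
  ring

section

variable {R : Type*} [CommRing R] {r : R}

theorem cop_xy (hr : r ^ 2 + r = 1) {a c : R} (h : IsCoprime a c) (n : ℕ) :
    IsCoprime (a ^ n) (r * (c ^ n - a ^ n)) := by
  refine IsCoprime.mul_right ⟨0, r + 1, by linear_combination hr⟩ ?_
  have h1 : IsCoprime (a ^ n) (c ^ n) := h.pow
  have h2 : c ^ n - a ^ n = c ^ n + a ^ n * (-1) := by ring
  rw [h2]
  exact h1.add_mul_left_right _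

/-- the icosahedral triple -/
theorem triple [IsDomain R] [IsPrincipalIdealRing R] [CharZero R] (hr : r ^ 2 + r = 1) {a c : R}
    (h : IsCoprime a c) (n : ℕ) : ∃ g a' b' c' : R, g ∣ 1728 * 5 ^ 35 ∧
      g * a' = 1728 * F (a ^ n) (r * (c ^ n - a ^ n)) ^ 5 ∧
      g * b' = -T (a ^ n) (r * (c ^ n - a ^ n)) ^ 2 ∧
      g * c' = -H (a ^ n) (r * (c ^ n - a ^ n)) ^ 3 ∧ a' + b' + c' = 0 ∧
      Ideal.span {a', b', c'} = (⊤ : Ideal R) := by
  set x := a ^ n
  set y := r * (c ^ n - a ^ n)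
  refine lowest ?_ ?_ ?_
  · have : ((1728 * 5 ^ 35 : ℕ) : R) ≠ 0 := Nat.cast_ne_zero.2 (by positivity)
    exact_mod_cast this
  · linear_combination -klein x y
  · obtain ⟨α, β, hαβ⟩ := cop7 (cop_xy hr h n)
    have e : (1728 * 5 ^ 35 : R) = α * (1728 * F x y ^ 5) +
        (0 * (-T x y ^ 2) + (-1728 * β) * (-H x y ^ 3)) := by
      have e2 : (5 ^ 35 : R) = 3125 ^ 7 := by norm_num
      rw [e2, ← hαβ]
      ring
    rw [Ideal.mem_span_insert]
    refine ⟨α, 0 * (-T x y ^ 2) + (-1728 * β) * (-H x y ^ 3), ?_, e⟩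
    rw [Ideal.mem_span_pair]
    exact ⟨0, -1728 * β, rfl⟩

/-- the factorisation of the first form -/
theorem facF (hr : r ^ 2 + r = 1) {a b c : R} (hs : a + b + c = 0) (m : ℕ) :
    F (a ^ (2 * m)) (r * (c ^ (2 * m) - a ^ (2 * m))) =
      r * (a ^ (2 * m) * (b * W m a c) * c ^ (2 * m)) *
        G r (a ^ (2 * m)) (c ^ (2 * m) - a ^ (2 * m)) := by
  have hb : b = -(a + c) := by linear_combination hs
  have h1 : b * W m a c = c ^ (2 * m) - a ^ (2 * m) := by
    rw [hb, mul_comm, W_mul]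
  rw [fac hr, h1]
  ring

end

end Pool.Agent.E8helper15.Ico
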