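import Pool.Agent.E8helper15.Ico.Fin
import Pool.Agent.TH402.AK.Trip

/-! # The number of the icosahedral triples -/

set_option autoImplicit false

namespace Pool.Agent.E8helper15.Ico

open NumberField IsDedekindDomain Module

theorem homFR {R : Type*} [CommRing R] (k x y : R) : F (k * x) (k * y) = k ^ 12 * F x y := by
  unfold F; ring

theorem homHR {R : Type*} [CommRing R] (k x y : R) : H (k * x) (k * y) = k ^ 20 * H x y := by
  unfold H; ring

theorem homTR {R : Type*} [CommRing R] (k x y : R) : T (k * x) (k * y) = k ^ 30 * T x y := by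
  unfold T; ring

theorem assoc {R : Type*} [CommRing R] [IsDomain R] {a b c a' b' c' g g' : R}
    (h : Ideal.span {a, b, c} = (⊤ : Ideal R)) (h' : Ideal.span {a', b', c'} = (⊤ : Ideal R))
    (hg' : g' ≠ 0) (e1 : g' * a' = g * a) (e2 : g' * b' = g * b) (e3 : g' * c' = g * c) :
    ∃ u : Rˣ, a' = u * a ∧ b' = u * b ∧ c' = u * c := by
  have key : ∀ {a b c a' b' c' g g' : R}, Ideal.span {a, b, c} = (⊤ : Ideal R) →
      g' * a' = g * a → g' * b' = g * b → g' * c' = g * c → g' ∣ g := by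
    intro a b c a' b' c' g g' h e1 e2 e3
    have h1 : (1 : R) ∈ Ideal.span {a, b, c} := by rw [h]; exact Submodule.mem_top
    rw [Ideal.mem_span_insert] at h1
    obtain ⟨u, z, hz, h1⟩ := h1
    rw [Ideal.mem_span_pair] at hz
    obtain ⟨v, w, hvw⟩ := hz
    refine ⟨u * a' + v * b' + w * c', ?_⟩
    linear_combination g * h1 - g * hvw - u * e1 - v * e2 - w * e3
  have k1 : g' ∣ g := key h e1 e2 e3
  have k2 : g ∣ g' := key h' e1.symm e2.symm e3.symm
  obtain ⟨u, hu⟩ := associated_of_dvd_dvd k1 k2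
  refine ⟨u, ?_, ?_, ?_⟩
  · exact mul_left_cancel₀ hg' (by rw [e1, ← hu]; ring)
  · exact mul_left_cancel₀ hg' (by rw [e2, ← hu]; ring)
  · exact mul_left_cancel₀ hg' (by rw [e3, ← hu]; ring)

variable {K : Type} [Field K] [NumberField K]

theorem count (w : 𝓞 K) (hw : w ^ 2 = w + 1) {M : ℕ} (hM : 0 < M) (N : ℕ) (δ : ℝ) {ε : ℝ}
    (hε : 0 < ε) : ∃ C : ℝ, 0 < C ∧ ∀ X : ℝ, 1 ≤ X → ∀ E : Finset (𝓞 K × 𝓞 K × 𝓞 K),
      (∀ t ∈ E, Ideal.span {t.1, t.2.1, t.2.2} = (⊤ : Ideal (𝓞 K)) ∧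
        t.1 * t.2.1 * t.2.2 ≠ 0 ∧ Fam w M N δ t.1 t.2.1 t.2.2 ∧ hgt t.1 t.2.1 t.2.2 ≤ X) →
      (∀ t ∈ E, ∀ s ∈ E, ∀ u : (𝓞 K)ˣ, s = (u * t.1, u * t.2.1, u * t.2.2) → s = t) →
      (E.card : ℝ) ≤ C * X ^ (1 / (60 * (M : ℝ)) + ε) := by
  classical
  have hr : (w - 1) ^ 2 + (w - 1) = 1 := by linear_combination hw
  obtain ⟨c₀, hc₀, hlow⟩ := height_lower hr M
  obtain ⟨C₁, hC₁, hcount⟩ := Pool.Agent.TH402.AK.Trip.count K ε hε
  set S : ℝ := 2 ^ Fintype.card (K →+* ℂ) with hS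
  have hS1 : 1 ≤ S := one_le_pow₀ (by norm_num)
  set B : ℝ := max 1 (1 / c₀) with hB
  have hB1 : 1 ≤ B := le_max_left _ _
  have hMR : (0 : ℝ) < M := by exact_mod_cast hM
  refine ⟨C₁ * (1 + 1 / ε) * (S ^ (2 + 4 * ε) * B ^ ((2 + 4 * ε) / (120 * M))), by positivity,
    fun X hX E hE hun => ?_⟩
  have hXB : 1 ≤ X * B := one_le_mul_of_one_le_of_one_le hX hB1
  set Y₀ : ℝ := (X * B) ^ (((120 * M : ℕ) : ℝ)⁻¹) with hY₀
  have hY₀1 : 1 ≤ Y₀ := Real.one_le_rpow hXB (by positivity)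
  set Y : ℝ := S * Y₀ with hY
  have hY1 : 1 ≤ Y := one_le_mul_of_one_le_of_one_le hS1 hY₀1
  -- the parameters
  have hpar : ∀ t : 𝓞 K × 𝓞 K × 𝓞 K, ∃ q : 𝓞 K × 𝓞 K × 𝓞 K, t ∈ E →
      IsCoprime q.2.1 q.2.2 ∧ Rel (w - 1) M q.2.1 (-(q.2.1 + q.2.2)) q.2.2 q.1 t.1 t.2.1 t.2.2 := by
    intro t
    by_cases ht : t ∈ E
    · obtain ⟨g, a, c, hac, hg, h1, h2, h3, -, -⟩ := (hE t ht).2.2.1
      exact ⟨(g, a, c), fun _ => ⟨hac, hg, h1, h2, h3⟩⟩
    · exact ⟨0, fun h => absurd h ht⟩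
  choose q hq using hpar
  set ψ : 𝓞 K × 𝓞 K × 𝓞 K → 𝓞 K × 𝓞 K × 𝓞 K := fun t =>
    ((q t).2.1, -((q t).2.1 + (q t).2.2), (q t).2.2) with hψ
  -- associated parameters come from equal triples
  have hinj : ∀ t ∈ E, ∀ s ∈ E, ∀ u : (𝓞 K)ˣ, (q s).2.1 = u * (q t).2.1 →
      (q s).2.2 = u * (q t).2.2 → s = t := by
    intro t ht s hs u hua huc
    obtain ⟨-, ht1⟩ := hq t ht
    obtain ⟨-, hs1⟩ := hq s hs
    have e1 := hs1.ha
    have e2 := hs1.hb
    have e3 := hs1.hc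
    have hx : (u * (q t).2.1) ^ (2 * M) = (u : 𝓞 K) ^ (2 * M) * (q t).2.1 ^ (2 * M) := mul_pow _ _ _
    have hz : (u * (q t).2.2) ^ (2 * M) = (u : 𝓞 K) ^ (2 * M) * (q t).2.2 ^ (2 * M) := mul_pow _ _ _
    have hy : (w - 1) * ((u : 𝓞 K) ^ (2 * M) * (q t).2.2 ^ (2 * M) -
        (u : 𝓞 K) ^ (2 * M) * (q t).2.1 ^ (2 * M)) =
        (u : 𝓞 K) ^ (2 * M) * ((w - 1) * ((q t).2.2 ^ (2 * M) - (q t).2.1 ^ (2 * M))) := by
      rw [← mul_sub, mul_left_comm]
    rw [hua, huc, hx, hz, hy] at e1 e2 e3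
    rw [homFR] at e1
    rw [homTR] at e2
    rw [homHR] at e3
    have k1 := ht1.ha
    have k2 := ht1.hb
    have k3 := ht1.hc
    generalize F ((q t).2.1 ^ (2 * M)) ((w - 1) * ((q t).2.2 ^ (2 * M) -
      (q t).2.1 ^ (2 * M))) = f at e1 k1
    generalize T ((q t).2.1 ^ (2 * M)) ((w - 1) * ((q t).2.2 ^ (2 * M) -
      (q t).2.1 ^ (2 * M))) = f' at e2 k2
    generalize H ((q t).2.1 ^ (2 * M)) ((w - 1) * ((q t).2.2 ^ (2 * M) -
      (q t).2.1 ^ (2 * M))) = f'' at e3 k3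
    generalize (u : 𝓞 K) ^ (2 * M) = k at e1 e2 e3
    have f1 : (q s).1 * s.1 = (k ^ 60 * (q t).1) * t.1 := by
      rw [e1, mul_assoc, k1]
      ring
    have f2 : (q s).1 * s.2.1 = (k ^ 60 * (q t).1) * t.2.1 := by
      rw [e2, mul_assoc, k2]
      ring
    have f3 : (q s).1 * s.2.2 = (k ^ 60 * (q t).1) * t.2.2 := by
      rw [e3, mul_assoc, k3]
      ring
    obtain ⟨v, hv1, hv2, hv3⟩ := assoc (hE t ht).1 (hE s hs).1 hs1.ne f1 f2 f3
    exact hun t ht s hs v (Prod.ext hv1 (Prod.ext hv2 hv3))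
  have hcard : (E.image ψ).card = E.card := by
    refine Finset.card_image_of_injOn ?_
    intro t ht s hs hts
    rw [hψ] at hts
    simp only [Prod.mk.injEq] at hts
    exact (hinj t ht s hs 1 (by rw [Units.val_one, one_mul]; exact hts.1.symm)
      (by rw [Units.val_one, one_mul]; exact hts.2.2.symm)).symm
  have hbound := hcount (Y ^ 3) (1 + Real.log Y) (one_le_pow₀ hY1)
    (by have := Real.log_nonneg hY1; linarith) (E.image ψ) (by
      intro t' ht'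
      rw [Finset.mem_image] at ht'
      obtain ⟨t, ht, rfl⟩ := ht'
      obtain ⟨hco, hrel⟩ := hq t ht
      obtain ⟨-, hne, -, hhgt⟩ := hE t ht
      have h1 := hlow _ _ _ _ _ _ _ hrel
      have hh1 := one_le_hh hco
      have h2 : hh (q t).2.1 (q t).2.2 ≤ Y₀ := by
        have h3 : hh (q t).2.1 (q t).2.2 ^ (120 * M) ≤ X * B := by
          have h4 : hh (q t).2.1 (q t).2.2 ^ (120 * M) ≤ X * (1 / c₀) := by
            rw [mul_one_div, le_div_iff₀ hc₀, mul_comm]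
            exact h1.trans hhgt
          refine h4.trans ?_
          have : 1 / c₀ ≤ B := le_max_right _ _
          gcongr
        have h5 : hh (q t).2.1 (q t).2.2 =
            (hh (q t).2.1 (q t).2.2 ^ (120 * M)) ^ (((120 * M : ℕ) : ℝ)⁻¹) :=
          (Real.pow_rpow_inv_natCast (by linarith) (by omega)).symm
        rw [h5, hY₀]
        exact Real.rpow_le_rpow (by positivity) h3 (by positivity)
      have hsum : (q t).2.1 + -((q t).2.1 + (q t).2.2) + (q t).2.2 = 0 := by ring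
      have h6 : hgt (q t).2.1 (-((q t).2.1 + (q t).2.2)) (q t).2.2 ≤ Y := by
        refine (hgt_le hsum).trans ?_
        rw [hY]
        gcongr
      -- nondegenerate
      have hF0 : F ((q t).2.1 ^ (2 * M)) ((w - 1) * ((q t).2.2 ^ (2 * M) -
          (q t).2.1 ^ (2 * M))) ≠ 0 := by
        intro h0
        have h7 := hrel.ha
        rw [h0] at h7
        have h8 : t.1 ≠ 0 := left_ne_zero_of_mul (left_ne_zero_of_mul hne)
        have h9 : (q t).1 * t.1 = 0 := by rw [h7]; ring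
        exact (mul_ne_zero hrel.ne h8) h9
      rw [facF hr hsum M] at hF0
      have g1 := right_ne_zero_of_mul (left_ne_zero_of_mul hF0)
      have g2 := left_ne_zero_of_mul g1
      have ha0 : (q t).2.1 ≠ 0 := fun h0 => (left_ne_zero_of_mul g2) (by
        rw [h0, zero_pow (by omega)])
      have hc0 : (q t).2.2 ≠ 0 := fun h0 => (right_ne_zero_of_mul g1) (by
        rw [h0, zero_pow (by omega)])
      have hb0 : -((q t).2.1 + (q t).2.2) ≠ 0 := left_ne_zero_of_mul (right_ne_zero_of_mul g2)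
      have habc := mul_ne_zero (mul_ne_zero ha0 hb0) hc0
      have hhgt0 : 0 < hgt (q t).2.1 (-((q t).2.1 + (q t).2.2)) (q t).2.2 := by
        have h10 := one_le_prod_norm ha0
        have h11 : (∏ φ : K →+* ℂ, ‖φ (q t).2.1‖) ≤
            hgt (q t).2.1 (-((q t).2.1 + (q t).2.2)) (q t).2.2 :=
          Finset.prod_le_prod (fun _ _ => norm_nonneg _) fun φ _ => le_max_left _ _
        linarith
      refine ⟨⟨hsum, habc, ?_⟩, ?_, ?_⟩
      · rw [Ideal.eq_top_iff_one]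
        obtain ⟨α, β, hαβ⟩ := hco
        change (1 : 𝓞 K) ∈ Ideal.span {(q t).2.1, -((q t).2.1 + (q t).2.2), (q t).2.2}
        rw [← hαβ]
        refine Ideal.add_mem _ ?_ ?_
        · exact Ideal.mul_mem_left _ _ (Ideal.subset_span (by simp))
        · exact Ideal.mul_mem_left _ _ (Ideal.subset_span (by simp))
      · change rd ((q t).2.1 * -((q t).2.1 + (q t).2.2) * (q t).2.2) ≤ Y ^ 3
        refine (rd_le_norm habc).trans ?_
        calc (∏ φ : K →+* ℂ, ‖φ (((q t).2.1 * -((q t).2.1 + (q t).2.2) * (q t).2.2 : 𝓞 K) : K)‖)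
            ≤ hgt (q t).2.1 (-((q t).2.1 + (q t).2.2)) (q t).2.2 ^ 3 := by
              unfold hgt
              rw [← Finset.prod_pow]
              refine Finset.prod_le_prod (fun _ _ => norm_nonneg _) fun φ _ => ?_
              have k : ‖φ (((q t).2.1 * -((q t).2.1 + (q t).2.2) * (q t).2.2 : 𝓞 K) : K)‖ =
                  ‖φ (q t).2.1‖ * ‖φ (-((q t).2.1 + (q t).2.2) : 𝓞 K)‖ * ‖φ (q t).2.2‖ := by
                have e := map_mul (emb φ) ((q t).2.1 * -((q t).2.1 + (q t).2.2)) (q t).2.2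
                rw [map_mul (emb φ) ((q t).2.1)] at e
                rw [← norm_mul, ← norm_mul]
                exact congrArg norm e
              rw [k]
              set m₀ := max ‖φ (q t).2.1‖ (max ‖φ (-((q t).2.1 + (q t).2.2) : 𝓞 K)‖
                ‖φ (q t).2.2‖) with hm₀
              have k1 : ‖φ (q t).2.1‖ ≤ m₀ := le_max_left _ _
              have k2 : ‖φ (-((q t).2.1 + (q t).2.2) : 𝓞 K)‖ ≤ m₀ :=
                (le_max_left _ _).trans (le_max_right _ _)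
              have k3 : ‖φ (q t).2.2‖ ≤ m₀ := (le_max_right _ _).trans (le_max_right _ _)
              have k0 : 0 ≤ m₀ := (norm_nonneg _).trans k1
              calc ‖φ (q t).2.1‖ * ‖φ (-((q t).2.1 + (q t).2.2) : 𝓞 K)‖ * ‖φ (q t).2.2‖
                  ≤ m₀ * m₀ * m₀ := by gcongr
                _ = m₀ ^ 3 := by ring
          _ ≤ Y ^ 3 := by gcongr
      · change Real.log (hgt (q t).2.1 (-((q t).2.1 + (q t).2.2)) (q t).2.2) ≤ _
        have := Real.log_le_log hhgt0 h6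
        linarith) (by
      intro t' ht' s' hs' u hu
      rw [Finset.mem_image] at ht' hs'
      obtain ⟨t, ht, rfl⟩ := ht'
      obtain ⟨s, hs, rfl⟩ := hs'
      rw [hψ] at hu
      simp only [Prod.mk.injEq] at hu
      rw [hinj t ht s hs u hu.1 hu.2.2])
  rw [hcard] at hbound
  have hY0 : 0 < Y := by linarith
  have l1 : 1 + Real.log Y ≤ (1 + 1 / ε) * Y ^ ε := by
    have h1 := Real.log_le_rpow_div hY0.le hε
    have h2 : 1 ≤ Y ^ ε := Real.one_le_rpow hY1 hε.le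
    have h3 : (1 + 1 / ε) * Y ^ ε = Y ^ ε + Y ^ ε / ε := by ring
    rw [h3]
    linarith
  have l2 : (Y ^ 3) ^ (2 / 3 + ε) = Y ^ (2 + 3 * ε) := by
    rw [← Real.rpow_natCast Y 3, ← Real.rpow_mul hY0.le]
    congr 1
    push_cast
    ring
  have l3 : Y ^ ε * Y ^ (2 + 3 * ε) = Y ^ (2 + 4 * ε) := by
    rw [← Real.rpow_add hY0]
    congr 1
    ring
  have l4 : Y ^ (2 + 4 * ε) ≤ (S ^ (2 + 4 * ε) * B ^ ((2 + 4 * ε) / (120 * M))) *
      X ^ (1 / (60 * (M : ℝ)) + ε) := by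
    rw [hY, Real.mul_rpow (by linarith) (by linarith), hY₀, ← Real.rpow_mul (by linarith)]
    have e1 : (((120 * M : ℕ) : ℝ)⁻¹) * (2 + 4 * ε) = (2 + 4 * ε) / (120 * M) := by
      push_cast
      ring
    rw [e1, Real.mul_rpow (by linarith) (by linarith)]
    have e2 : X ^ ((2 + 4 * ε) / (120 * (M : ℝ))) ≤ X ^ (1 / (60 * (M : ℝ)) + ε) := by
      refine Real.rpow_le_rpow_of_exponent_le hX ?_
      have hM1 : (1 : ℝ) ≤ M := by exact_mod_cast hM
      rw [div_le_iff₀ (by positivity)]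
      have e3 : (1 / (60 * (M : ℝ)) + ε) * (120 * M) = 2 + 120 * (ε * M) := by
        field_simp
        ring
      rw [e3]
      nlinarith
    have e4 : 0 ≤ S ^ (2 + 4 * ε) * B ^ ((2 + 4 * ε) / (120 * (M : ℝ))) := by positivity
    calc S ^ (2 + 4 * ε) * (X ^ ((2 + 4 * ε) / (120 * (M : ℝ))) *
          B ^ ((2 + 4 * ε) / (120 * (M : ℝ))))
        = (S ^ (2 + 4 * ε) * B ^ ((2 + 4 * ε) / (120 * (M : ℝ)))) *
          X ^ ((2 + 4 * ε) / (120 * (M : ℝ))) := by ring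
      _ ≤ _ := mul_le_mul_of_nonneg_left e2 e4
  calc (E.card : ℝ) ≤ C₁ * (1 + Real.log Y) * (Y ^ 3) ^ (2 / 3 + ε) := hbound
    _ ≤ C₁ * ((1 + 1 / ε) * Y ^ ε) * (Y ^ 3) ^ (2 / 3 + ε) := by gcongr
    _ = C₁ * (1 + 1 / ε) * (Y ^ ε * Y ^ (2 + 3 * ε)) := by rw [l2]; ring
    _ = C₁ * (1 + 1 / ε) * Y ^ (2 + 4 * ε) := by rw [l3]
    _ ≤ C₁ * (1 + 1 / ε) * ((S ^ (2 + 4 * ε) * B ^ ((2 + 4 * ε) / (120 * M))) *
          X ^ (1 / (60 * (M : ℝ)) + ε)) := by gcongr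
    _ = _ := by ring

end Pool.Agent.E8helper15.Ico
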