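import Mathlib

/-! # Exponents -/

set_option autoImplicit false

namespace Pool.Agent.E8helper15.Ico

theorem expo (e : ℕ) {ε : ℝ} (hε : 0 < ε) :
    ∃ ε' : ℝ, 0 < ε' ∧ ∀ C : ℝ, 0 < C → ∃ D : ℝ, 0 < D ∧ ∀ h ρ : ℝ, 1 ≤ h → 1 ≤ ρ →
      h ^ (e + 1) ≤ C * (ρ * h ^ e) ^ (1 + ε') → h ≤ D * ρ ^ (1 + ε) := by
  have he : (0 : ℝ) ≤ e := Nat.cast_nonneg e
  set ε' : ℝ := ε / ((1 + ε) * (e + 1)) with hε'
  have hε'p : 0 < ε' := by positivity
  have hmul : ε' * ((1 + ε) * (e + 1)) = ε := by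
    rw [hε']; field_simp
  set κ : ℝ := 1 - e * ε' with hκ
  have hκε : 1 + ε' ≤ (1 + ε) * κ := by
    rw [hκ]
    nlinarith
  have hκp : 0 < κ := by
    by_contra hcon
    push Not at hcon
    have : (1 + ε) * κ ≤ 0 := mul_nonpos_of_nonneg_of_nonpos (by linarith) hcon
    linarith
  refine ⟨ε', hε'p, fun C hC => ⟨Real.exp (|Real.log C| / κ), Real.exp_pos _, ?_⟩⟩
  intro h ρ hh hρ hle
  have hh0 : 0 < h := by linarith
  have hρ0 : 0 < ρ := by linarith
  have h1 := Real.log_le_log (by positivity) hle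
  rw [Real.log_pow, Real.log_mul hC.ne' (by positivity), Real.log_rpow (by positivity),
    Real.log_mul hρ0.ne' (by positivity), Real.log_pow] at h1
  push_cast at h1
  have hL : 0 ≤ Real.log h := Real.log_nonneg hh
  have hP : 0 ≤ Real.log ρ := Real.log_nonneg hρ
  have h2 : κ * Real.log h ≤ |Real.log C| + (1 + ε) * κ * Real.log ρ := by
    have h3 := le_abs_self (Real.log C)
    have h4 : (1 + ε') * Real.log ρ ≤ (1 + ε) * κ * Real.log ρ := by gcongr
    rw [hκ] at h4 ⊢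
    nlinarith
  have h5 : Real.log h ≤ |Real.log C| / κ + (1 + ε) * Real.log ρ := by
    rw [← mul_le_mul_iff_of_pos_left hκp]
    have : κ * (|Real.log C| / κ + (1 + ε) * Real.log ρ) =
        |Real.log C| + (1 + ε) * κ * Real.log ρ := by
      field_simp
    rw [this]
    exact h2
  calc h = Real.exp (Real.log h) := (Real.exp_log hh0).symm
    _ ≤ Real.exp (|Real.log C| / κ + (1 + ε) * Real.log ρ) := Real.exp_le_exp.2 h5
    _ = Real.exp (|Real.log C| / κ) * ρ ^ (1 + ε) := by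
        rw [Real.exp_add, Real.rpow_def_of_pos hρ0, mul_comm (1 + ε)]

theorem exists_small {I : Type*} [Fintype I] (f : I → ℝ) (hf : ∀ i, 0 < f i) :
    ∃ η : ℝ, 0 < η ∧ η < 1 ∧ ∀ i, 16 * η ≤ f i := by
  have hS : 0 ≤ ∑ i, 16 / f i := Finset.sum_nonneg fun i _ => by
    have := hf i
    positivity
  have hpos : 0 < 2 + ∑ i, 16 / f i := by linarith
  refine ⟨(2 + ∑ i, 16 / f i)⁻¹, by positivity, ?_, fun i => ?_⟩
  · rw [inv_lt_one_iff₀]
    right
    linarith
  · have h1 : 16 / f i ≤ ∑ i, 16 / f i :=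
      Finset.single_le_sum (f := fun i => 16 / f i) (fun j _ => by
        have := hf j
        positivity) (Finset.mem_univ i)
    have hi := hf i
    rw [← div_eq_mul_inv, div_le_iff₀ hpos]
    rw [div_le_iff₀ hi] at h1
    nlinarith

end Pool.Agent.E8helper15.Ico
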