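import Pool.Agent.E8helper15.Ico.Main

/-! # The reduction of the abc conjecture to icosahedral triples: conclusion -/

set_option autoImplicit false

namespace Pool.Agent.E8helper15.Ico

open NumberField IsDedekindDomain Module

variable {K : Type} [Field K] [NumberField K]

/-- the restricted family -/
def Fam (w : 𝓞 K) (M N : ℕ) (δ : ℝ) (a' b' c' : 𝓞 K) : Prop :=
  ∃ g a c : 𝓞 K, IsCoprime a c ∧ g ∣ 1728 * 5 ^ 35 ∧
    g * a' = 1728 * F (a ^ (2 * M)) ((w - 1) * (c ^ (2 * M) - a ^ (2 * M))) ^ 5 ∧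
    g * b' = -T (a ^ (2 * M)) ((w - 1) * (c ^ (2 * M) - a ^ (2 * M))) ^ 2 ∧
    g * c' = -H (a ^ (2 * M)) ((w - 1) * (c ^ (2 * M) - a ^ (2 * M))) ^ 3 ∧
    (N : 𝓞 K) ∣ F (a ^ (2 * M)) ((w - 1) * (c ^ (2 * M) - a ^ (2 * M))) ∧
    ∀ φ : K →+* ℂ,
      ‖φ (F (a ^ (2 * M)) ((w - 1) * (c ^ (2 * M) - a ^ (2 * M))) : 𝓞 K)‖ ^ 5 ≤
        δ * ‖φ (H (a ^ (2 * M)) ((w - 1) * (c ^ (2 * M) - a ^ (2 * M))) : 𝓞 K)‖ ^ 3

/-- the abc inequality for a set of triples -/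
def Ineq (S : 𝓞 K → 𝓞 K → 𝓞 K → Prop) : Prop :=
  ∀ ε : ℝ, 0 < ε → ∃ C : ℝ, ∀ a b c : 𝓞 K, a + b + c = 0 →
    Ideal.span {a, b, c} = (⊤ : Ideal (𝓞 K)) → S a b c →
    hgt a b c ≤ C * rd (a * b * c) ^ (1 + ε)

theorem step [IsPrincipalIdealRing (𝓞 K)] {w : 𝓞 K} (hw : w ^ 2 = w + 1) {M l : ℕ}
    (hM : M ≠ 0) (hl : l ≠ 0) {N : ℕ} {δ : ℝ} (hyp : Ineq (K := K) (Fam w M N δ)) {ε : ℝ}
    (hε : 0 < ε) :
    ∃ C : ℝ, 0 < C ∧ ∀ a b c : 𝓞 K, a + b + c = 0 →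
      Ideal.span {a, b, c} = (⊤ : Ideal (𝓞 K)) →
      (N : 𝓞 K) ∣ F (a ^ (2 * (M * l))) ((w - 1) * (c ^ (2 * (M * l)) - a ^ (2 * (M * l)))) →
      (∀ φ : K →+* ℂ,
        ‖φ (F (a ^ (2 * (M * l))) ((w - 1) * (c ^ (2 * (M * l)) - a ^ (2 * (M * l)))) : 𝓞 K)‖ ^ 5 ≤
        δ * ‖φ (H (a ^ (2 * (M * l)))
          ((w - 1) * (c ^ (2 * (M * l)) - a ^ (2 * (M * l)))) : 𝓞 K)‖ ^ 3) →
      hgt a b c ≤ C * rd (a * b * c) ^ (1 + ε) := by
  have hr : (w - 1) ^ 2 + (w - 1) = 1 := by linear_combination hw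
  have hm : M * l ≠ 0 := mul_ne_zero hM hl
  set m := M * l with hmdef
  obtain ⟨ε', hε', hex⟩ := expo (120 * m - 1) hε
  obtain ⟨C', hC'⟩ := hyp ε' hε'
  obtain ⟨c₀, hc₀, hlow⟩ := height_lower hr m
  obtain ⟨C₁, hC₁, hup⟩ := rad_upper hr hm
  obtain ⟨D, hD, hfin⟩ := hex ((|C'| + 1) * C₁ ^ (1 + ε') / c₀) (by positivity)
  refine ⟨2 ^ Fintype.card (K →+* ℂ) * D, by positivity, fun a b c hs hco hN hloc => ?_⟩
  have hac := cop_ac hs hco
  obtain ⟨g, a', b', c', hg, ha, hb, hc, hs', hco'⟩ := triple hr hac (2 * m)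
  have hrel : Rel (w - 1) m a b c g a' b' c' := ⟨hg, ha, hb, hc⟩
  have hpow : ∀ z : 𝓞 K, z ^ (2 * m) = (z ^ l) ^ (2 * M) := fun z => by
    rw [← pow_mul, hmdef]
    congr 1
    ring
  have hfam : Fam w M N δ a' b' c' := by
    refine ⟨g, a ^ l, c ^ l, hac.pow, hg, ?_, ?_, ?_, ?_, ?_⟩
    · rw [ha, hpow, hpow]
    · rw [hb, hpow, hpow]
    · rw [hc, hpow, hpow]
    · rw [hpow, hpow] at hN
      exact hN
    · intro φ
      have h0 := hloc φ
      rw [hpow, hpow] at h0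
      exact h0
  have h1 := hC' a' b' c' hs' hco' hfam
  have h2 := hlow a b c g a' b' c' hrel
  have h3 := hup a b c g a' b' c' hs hac hrel
  have hh1 := one_le_hh hac
  have hrd := one_le_rd (a * b * c)
  have hrd' := one_le_rd (a' * b' * c')
  have he : 120 * m - 1 + 1 = 120 * m := by omega
  have h4 : hh a c ^ (120 * m - 1 + 1) ≤ (|C'| + 1) * C₁ ^ (1 + ε') / c₀ *
      (rd (a * b * c) * hh a c ^ (120 * m - 1)) ^ (1 + ε') := by
    rw [he]
    have h5 : c₀ * hh a c ^ (120 * m) ≤ (|C'| + 1) * (C₁ ^ (1 + ε') *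
        (rd (a * b * c) * hh a c ^ (120 * m - 1)) ^ (1 + ε')) := by
      rw [← Real.mul_rpow hC₁.le (by positivity)]
      calc c₀ * hh a c ^ (120 * m) ≤ hgt a' b' c' := h2
        _ ≤ C' * rd (a' * b' * c') ^ (1 + ε') := h1
        _ ≤ (|C'| + 1) * rd (a' * b' * c') ^ (1 + ε') := by
            have h6 : C' ≤ |C'| + 1 := by
              have := le_abs_self C'
              linarith
            have h7 : 0 ≤ rd (a' * b' * c') ^ (1 + ε') := by positivity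
            gcongr
        _ ≤ (|C'| + 1) * (C₁ * (rd (a * b * c) * hh a c ^ (120 * m - 1))) ^ (1 + ε') := by
            have h8 : 0 ≤ rd (a' * b' * c') := by linarith
            have h9 : 0 ≤ 1 + ε' := by linarith
            have h10 := Real.rpow_le_rpow h8 h3 h9
            have h11 : 0 ≤ |C'| + 1 := by positivity
            exact mul_le_mul_of_nonneg_left h10 h11
    rw [div_mul_eq_mul_div, le_div_iff₀ hc₀]
    calc hh a c ^ (120 * m) * c₀ = c₀ * hh a c ^ (120 * m) := mul_comm _ _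
      _ ≤ _ := h5
      _ = _ := by ring
  have h12 := hfin _ _ hh1 hrd h4
  calc hgt a b c ≤ 2 ^ Fintype.card (K →+* ℂ) * hh a c := hgt_le hs
    _ ≤ 2 ^ Fintype.card (K →+* ℂ) * (D * rd (a * b * c) ^ (1 + ε)) := by gcongr
    _ = 2 ^ Fintype.card (K →+* ℂ) * D * rd (a * b * c) ^ (1 + ε) := by ring

/-- the abc conjecture follows from its restriction to the family -/
theorem main (hK : finrank ℚ K = 2) {s : K} (hs : s ^ 2 = 5) {w : 𝓞 K} (hw : w ^ 2 = w + 1)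
    {M N : ℕ} (hM : 0 < M) (hN : 0 < N) {δ : ℝ} (hδ : 0 < δ)
    (hyp : Ineq (K := K) (Fam w M N δ)) : Ineq (K := K) (fun _ _ _ => True) := by
  have := Pool.Agent.Y382.Gold.pid hK hs
  have hr : (w - 1) ^ 2 + (w - 1) = 1 := by linear_combination hw
  set r := w - 1 with hrdef
  have hφr : ∀ φ : K →+* ℂ, emb φ r ^ 2 + emb φ r = 1 := by
    intro φ
    have h1 := congrArg (emb φ) hr
    rwa [map_add, map_pow, map_one] at h1
  choose ηφ hηφ hnear using fun φ : K →+* ℂ => near (hφr φ) hδ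
  obtain ⟨η, hη, hη1, hηle⟩ := exists_small ηφ hηφ
  -- the common idempotent exponent
  have hNne : (N : 𝓞 K) ≠ 0 := Nat.cast_ne_zero.2 hN.ne'
  have hspan : Ideal.span {(N : 𝓞 K)} ≠ ⊥ := by
    rw [Ne, Ideal.span_singleton_eq_bot]
    exact hNne
  have hfinite : Finite (𝓞 K ⧸ Ideal.span {(N : 𝓞 K)}) := Ideal.finiteQuotientOfFreeOfNeBot _ hspan
  obtain ⟨n₀, hn₀, hidem⟩ := exists_idem (𝓞 K ⧸ Ideal.span {(N : 𝓞 K)})
  obtain ⟨k₀, hk₀⟩ := exists_pow_lt_of_lt_one hη (show 1 - η < 1 by linarith)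
  have hk : (1 - η) ^ (k₀ + 1) ≤ η := by
    rw [pow_succ]
    have h1 : 0 ≤ (1 - η) ^ k₀ := pow_nonneg (by linarith) _
    nlinarith
  set k := k₀ + 1 with hkdef
  have hkpos : 0 < k := by omega
  intro ε hε
  have hme : ∀ e : Fin 3, n₀ * k ^ (e : ℕ) ≠ 0 := fun e => by positivity
  choose C hC hCe using fun e : Fin 3 => step hw hM.ne' (hme e) hyp hε
  refine ⟨∑ e, C e, fun a b c hsum hco _ => ?_⟩
  obtain ⟨e, he⟩ := sel (card_emb hK) hη1 hkpos hk (2 * (M * n₀))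
    (fun φ : K →+* ℂ => min ‖φ a‖ ‖φ c‖ / max ‖φ a‖ ‖φ c‖) (fun φ => by positivity)
  have h2n : 2 * (M * n₀) * k ^ (e : ℕ) = 2 * (M * (n₀ * k ^ (e : ℕ))) := by ring
  rw [h2n] at he
  have key := hCe e a b c hsum hco
  set m := M * (n₀ * k ^ (e : ℕ)) with hm
  have h1 : hgt a b c ≤ C e * rd (a * b * c) ^ (1 + ε) := by
    refine key ?_ ?_
    · -- divisibility
      rw [← hrdef, fac hr]
      have h2 : (N : 𝓞 K) ∣ a ^ (2 * m) * c ^ (2 * m) * (c ^ (2 * m) - a ^ (2 * m)) := by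
        rw [← Ideal.mem_span_singleton, ← Ideal.Quotient.eq_zero_iff_mem]
        simp only [map_mul, map_sub, map_pow]
        have h3 : 2 * m = n₀ * (2 * M * k ^ (e : ℕ)) := by rw [hm]; ring
        rw [h3]
        exact idem_prod _ _ (idem_mul hidem _ _) (idem_mul hidem _ _)
      have h4 : r * a ^ (2 * m) * (c ^ (2 * m) - a ^ (2 * m)) *
          (a ^ (2 * m) + (c ^ (2 * m) - a ^ (2 * m))) *
          G r (a ^ (2 * m)) (c ^ (2 * m) - a ^ (2 * m)) =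
          a ^ (2 * m) * c ^ (2 * m) * (c ^ (2 * m) - a ^ (2 * m)) *
          (r * G r (a ^ (2 * m)) (c ^ (2 * m) - a ^ (2 * m))) := by ring
      rw [h4]
      exact h2.mul_right _
    · -- the real places
      intro φ
      rw [← hrdef]
      have h5 := local_cond hη (even_two_mul m) (im_zero hK hs φ a) (im_zero hK hs φ c) (he φ)
      have h6 := q_le (2 * m) ((φ a, φ c) : ℂ × ℂ)
      have h7 := hnear φ (φ a ^ (2 * m), φ c ^ (2 * m) - φ a ^ (2 * m))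
      rw [Prod.norm_def ((φ a, φ c) : ℂ × ℂ)] at h6
      simp only at h6 h7
      set p : ℂ × ℂ := (φ a ^ (2 * m), φ c ^ (2 * m) - φ a ^ (2 * m)) with hp
      have h8 := h7 (by
        refine h5.trans ?_
        calc 2 * η * (max ‖φ a‖ ‖φ c‖ ^ (2 * m)) ^ 3 ≤ 2 * η * (2 * ‖p‖) ^ 3 := by gcongr
          _ = 16 * η * ‖p‖ ^ 3 := by ring
          _ ≤ ηφ φ * ‖p‖ ^ 3 := by
            have := hηle φ
            gcongr)
      have e1 : φ ((F (a ^ (2 * m)) (r * (c ^ (2 * m) - a ^ (2 * m))) : 𝓞 K) : K) =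
          F (φ a ^ (2 * m)) (emb φ r * (φ c ^ (2 * m) - φ a ^ (2 * m))) := by
        change emb φ _ = _
        simp only [mapF, map_mul, map_pow, map_sub, emb_apply]
      have e2 : φ ((H (a ^ (2 * m)) (r * (c ^ (2 * m) - a ^ (2 * m))) : 𝓞 K) : K) =
          H (φ a ^ (2 * m)) (emb φ r * (φ c ^ (2 * m) - φ a ^ (2 * m))) := by
        change emb φ _ = _
        simp only [mapH, map_mul, map_pow, map_sub, emb_apply]
      rw [e1, e2]
      exact h8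
  refine h1.trans ?_
  have h9 : C e ≤ ∑ e, C e := Finset.single_le_sum (fun i _ => (hC i).le) (Finset.mem_univ e)
  have h10 := one_le_rd (a * b * c)
  gcongr

end Pool.Agent.E8helper15.Ico
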