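import Mathlib

/-! # The icosahedral forms -/

set_option autoImplicit false

namespace Pool.Agent.E8helper15.Ico

section forms

variable {R : Type*} [CommRing R]

/-- Klein's form of degree 12 (vertices) -/
def F (x y : R) : R := x * y * (x ^ 10 + 11 * x ^ 5 * y ^ 5 - y ^ 10)

/-- Klein's form of degree 20 (faces) -/
def H (x y : R) : R :=
  -(x ^ 20 + y ^ 20) + 228 * (x ^ 15 * y ^ 5 - x ^ 5 * y ^ 15) - 494 * x ^ 10 * y ^ 10

/-- Klein's form of degree 30 (edges) -/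
def T (x y : R) : R :=
  (x ^ 30 + y ^ 30) + 522 * (x ^ 25 * y ^ 5 - x ^ 5 * y ^ 25) -
    10005 * (x ^ 20 * y ^ 10 + x ^ 10 * y ^ 20)

/-- the factor of degree 9 of `F x (r v)` -/
def G (r x v : R) : R :=
  (x ^ 4 - x ^ 3 * v + x ^ 2 * v ^ 2 - x * v ^ 3 + v ^ 4) * (x ^ 5 - r ^ 10 * v ^ 5)

theorem klein (x y : R) : T x y ^ 2 + H x y ^ 3 = 1728 * F x y ^ 5 := by
  unfold F H T; ring

theorem bez (x y : R) : 3125 * x ^ 11 * y ^ 11 =
    F x y * (-x ^ 10 + 239 * x ^ 5 * y ^ 5 + y ^ 10) - x * y * H x y := by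
  unfold F H; ring

theorem fac {r : R} (h : r ^ 2 + r = 1) (x v : R) :
    F x (r * v) = r * x * v * (x + v) * G r x v := by
  have h5 : r ^ 5 = 5 * r - 3 := by linear_combination (r ^ 3 - r ^ 2 + 2 * r - 3) * h
  have h10 : r ^ 10 + 11 * r ^ 5 - 1 = 0 := by
    linear_combination (r ^ 5 + (5 * r - 3) + 11) * h5 + 25 * h
  unfold F G
  linear_combination (r * x * v * x ^ 5 * v ^ 5) * h10

theorem copH_left {x y : R} (h : IsCoprime x y) : IsCoprime (H x y) x := by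
  have h1 : H x y = -(y ^ 20) + x * (-x ^ 19 + 228 * (x ^ 14 * y ^ 5 - x ^ 4 * y ^ 15) -
      494 * x ^ 9 * y ^ 10) := by
    unfold H; ring
  rw [h1]
  exact ((h.symm.pow_left (m := 20)).neg_left).add_mul_left_left _

theorem copH_right {x y : R} (h : IsCoprime x y) : IsCoprime (H x y) y := by
  have h1 : H x y = -(x ^ 20) + y * (-y ^ 19 + 228 * (x ^ 15 * y ^ 4 - x ^ 5 * y ^ 14) -
      494 * x ^ 10 * y ^ 9) := by
    unfold H; ring
  rw [h1]
  exact ((h.pow_left (m := 20)).neg_left).add_mul_left_left _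

theorem cop {x y : R} (h : IsCoprime x y) : ∃ α β : R, α * F x y + β * H x y = 3125 := by
  have h1 : IsCoprime (H x y) (x ^ 11 * y ^ 11) :=
    ((copH_left h).pow_right).mul_right ((copH_right h).pow_right)
  obtain ⟨p, q, hpq⟩ := h1
  refine ⟨q * (-x ^ 10 + 239 * x ^ 5 * y ^ 5 + y ^ 10), 3125 * p - q * x * y, ?_⟩
  linear_combination 3125 * hpq - q * bez x y

theorem cop7 {x y : R} (h : IsCoprime x y) :
    ∃ α β : R, α * F x y ^ 5 + β * H x y ^ 3 = 3125 ^ 7 := by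
  obtain ⟨a, b, hab⟩ := cop h
  refine ⟨a ^ 7 * F x y ^ 2 + 7 * a ^ 6 * F x y * b * H x y + 21 * a ^ 5 * b ^ 2 * H x y ^ 2,
    35 * a ^ 4 * F x y ^ 4 * b ^ 3 + 35 * a ^ 3 * F x y ^ 3 * b ^ 4 * H x y +
      21 * a ^ 2 * F x y ^ 2 * b ^ 5 * H x y ^ 2 + 7 * a * F x y * b ^ 6 * H x y ^ 3 +
      b ^ 7 * H x y ^ 4, ?_⟩
  rw [← hab]
  ring

theorem mapF {S : Type*} [CommRing S] (φ : R →+* S) (x y : R) : φ (F x y) = F (φ x) (φ y) := by
  simp [F, map_ofNat]

theorem mapH {S : Type*} [CommRing S] (φ : R →+* S) (x y : R) : φ (H x y) = H (φ x) (φ y) := by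
  simp [H, map_ofNat]

theorem mapT {S : Type*} [CommRing S] (φ : R →+* S) (x y : R) : φ (T x y) = T (φ x) (φ y) := by
  simp [T, map_ofNat]

theorem mapG {S : Type*} [CommRing S] (φ : R →+* S) (r x v : R) :
    φ (G r x v) = G (φ r) (φ x) (φ v) := by
  simp [G]

end forms

end Pool.Agent.E8helper15.Ico
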