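import Mathlib

/-! # Radicals and norms -/

set_option autoImplicit false

namespace Pool.Agent.E8helper15.Ico

open NumberField IsDedekindDomain

variable {K : Type} [Field K] [NumberField K]

/-- the product of the norms of the prime ideals containing `a` -/
noncomputable def rd (a : 𝓞 K) : ℝ :=
  ∏ᶠ (P : HeightOneSpectrum (𝓞 K)) (_ : a ∈ P.asIdeal), (Ideal.absNorm P.asIdeal : ℝ)

theorem fin_set {a : 𝓞 K} (ha : a ≠ 0) : {P : HeightOneSpectrum (𝓞 K) | a ∈ P.asIdeal}.Finite := by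
  have h : Ideal.span {a} ≠ (0 : Ideal (𝓞 K)) := by
    rw [Ne, Ideal.zero_eq_bot, Ideal.span_singleton_eq_bot]
    exact ha
  refine (Ideal.finite_factors h).subset ?_
  intro P hP
  exact (Ideal.dvd_span_singleton).2 hP

theorem one_le_norm (P : HeightOneSpectrum (𝓞 K)) : (1 : ℝ) ≤ (Ideal.absNorm P.asIdeal : ℝ) := by
  have h : Ideal.absNorm P.asIdeal ≠ 0 := by
    rw [Ne, Ideal.absNorm_eq_zero_iff]
    exact P.ne_bot
  exact_mod_cast Nat.one_le_iff_ne_zero.2 h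

theorem one_le_rd (a : 𝓞 K) : 1 ≤ rd a := by
  unfold rd
  refine finprod_induction (fun x : ℝ => 1 ≤ x) le_rfl
    (fun x y hx hy => one_le_mul_of_one_le_of_one_le hx hy) fun P => ?_
  by_cases h : a ∈ P.asIdeal
  · simp only [h, finprod_true]
    exact one_le_norm P
  · simp [h]

theorem one_le_fin (S : Finset (HeightOneSpectrum (𝓞 K))) :
    (1 : ℝ) ≤ ∏ P ∈ S, (Ideal.absNorm P.asIdeal : ℝ) :=
  Finset.prod_induction _ (fun x : ℝ => 1 ≤ x)
    (fun _ _ hx hy => one_le_mul_of_one_le_of_one_le hx hy) le_rfl fun P _ => one_le_norm P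

theorem rd_eq {a : 𝓞 K} (ha : a ≠ 0) :
    rd a = ∏ P ∈ (fin_set ha).toFinset, (Ideal.absNorm P.asIdeal : ℝ) := by
  unfold rd
  rw [← finprod_mem_eq_finite_toFinset_prod _ (fin_set ha)]
  rfl

theorem rd_mono {a b : 𝓞 K} (ha : a ≠ 0) (hb : b ≠ 0)
    (h : ∀ P : HeightOneSpectrum (𝓞 K), a ∈ P.asIdeal → b ∈ P.asIdeal) : rd a ≤ rd b := by
  classical
  rw [rd_eq ha, rd_eq hb]
  have hsub : (fin_set ha).toFinset ⊆ (fin_set hb).toFinset := by
    intro P hP
    rw [Set.Finite.mem_toFinset] at hP ⊢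
    exact h P hP
  rw [← Finset.prod_sdiff hsub]
  exact le_mul_of_one_le_left (zero_le_one.trans (one_le_fin _)) (one_le_fin _)

theorem rd_mul_le {a b : 𝓞 K} (ha : a ≠ 0) (hb : b ≠ 0) : rd (a * b) ≤ rd a * rd b := by
  classical
  have hab : a * b ≠ 0 := mul_ne_zero ha hb
  rw [rd_eq ha, rd_eq hb, rd_eq hab]
  have h1 : (fin_set hab).toFinset = (fin_set ha).toFinset ∪ (fin_set hb).toFinset := by
    ext P
    simp only [Set.Finite.mem_toFinset, Finset.mem_union, Set.mem_ofPred_eq]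
    constructor
    · intro h
      exact P.isPrime.mem_or_mem h
    · rintro (h | h)
      · exact P.asIdeal.mul_mem_right _ h
      · exact P.asIdeal.mul_mem_left _ h
  rw [h1, ← Finset.prod_union_inter]
  exact le_mul_of_one_le_right (zero_le_one.trans (one_le_fin _)) (one_le_fin _)

theorem absNorm_eq (a : 𝓞 K) :
    (Ideal.absNorm (Ideal.span {a}) : ℝ) = ∏ φ : K →+* ℂ, ‖φ a‖ := by
  rw [Ideal.absNorm_span_singleton]
  have h1 : ((Algebra.norm ℚ (a : K) : ℚ) : ℂ) = ∏ φ : K →ₐ[ℚ] ℂ, φ a :=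
    Algebra.norm_eq_prod_embeddings ℚ ℂ (a : K)
  have h2 : (∏ φ : K →ₐ[ℚ] ℂ, φ a) = ∏ φ : K →+* ℂ, φ a := by
    refine (Fintype.prod_equiv (RingHom.equivRatAlgHom K ℂ) _ _ fun φ => ?_).symm
    rfl
  have h3 : ((Algebra.norm ℤ a : ℤ) : ℚ) = Algebra.norm ℚ (a : K) := Algebra.coe_norm_int a
  rw [h2, ← h3] at h1
  have h4 : (((Algebra.norm ℤ a).natAbs : ℕ) : ℝ) = ‖(((Algebra.norm ℤ a : ℤ) : ℚ) : ℂ)‖ := by
    rw [Rat.cast_intCast, Complex.norm_intCast, Nat.cast_natAbs, Int.cast_abs]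
  rw [h4, h1, norm_prod]

theorem rd_le_norm {a : 𝓞 K} (ha : a ≠ 0) : rd a ≤ ∏ φ : K →+* ℂ, ‖φ a‖ := by
  rw [← absNorm_eq, rd_eq ha]
  have h0 : Ideal.span {a} ≠ (⊥ : Ideal (𝓞 K)) := by
    rw [Ne, Ideal.span_singleton_eq_bot]
    exact ha
  have h1 : (∏ P ∈ (fin_set ha).toFinset, P.asIdeal) ∣ Ideal.span {a} := by
    refine Finset.prod_dvd_of_coprime ?_ ?_
    · intro P _ Q _ hPQ
      have hne : P.asIdeal ≠ Q.asIdeal := fun he => hPQ (HeightOneSpectrum.ext he)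
      have hP : P.asIdeal.IsMaximal := P.isPrime.isMaximal P.ne_bot
      have hQ : Q.asIdeal.IsMaximal := Q.isPrime.isMaximal Q.ne_bot
      exact Ideal.isCoprime_iff_sup_eq.2 (Ideal.IsMaximal.coprime_of_ne hP hQ hne)
    · intro P hP
      rw [Set.Finite.mem_toFinset] at hP
      exact (Ideal.dvd_span_singleton).2 hP
  have h2 := map_dvd (Ideal.absNorm (S := 𝓞 K)) h1
  rw [map_prod] at h2
  have h3 : 0 < Ideal.absNorm (Ideal.span {a}) := by
    rw [Nat.pos_iff_ne_zero, Ne, Ideal.absNorm_eq_zero_iff]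
    exact h0
  have h4 := Nat.le_of_dvd h3 h2
  exact_mod_cast h4

end Pool.Agent.E8helper15.Ico
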