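import Mathlib
import Pool.Agent.Y382.Gold

/-! # The choice of the exponent -/

set_option autoImplicit false

namespace Pool.Agent.E8helper15.Ico

/-- in a finite monoid all elements have a common idempotent power -/
theorem exists_idem (M : Type*) [Monoid M] [Finite M] :
    ∃ n : ℕ, 0 < n ∧ ∀ t : M, t ^ n * t ^ n = t ^ n := by
  classical
  have := Fintype.ofFinite M
  refine ⟨(Fintype.card M).factorial, Nat.factorial_pos _, fun t => ?_⟩
  set q := Fintype.card M with hq
  -- pigeonhole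
  obtain ⟨i, j, hij, hjq, he⟩ : ∃ i j : ℕ, i < j ∧ j ≤ q ∧ t ^ i = t ^ j := by
    have hcard : Fintype.card M < Fintype.card (Fin (q + 1)) := by
      rw [Fintype.card_fin]; omega
    obtain ⟨x, y, hxy, he⟩ := Fintype.exists_ne_map_eq_of_card_lt
      (fun i : Fin (q + 1) => t ^ (i : ℕ)) hcard
    rcases lt_or_gt_of_ne (Fin.val_ne_of_ne hxy) with h | h
    · exact ⟨x, y, h, by omega, he⟩
    · exact ⟨y, x, h, by omega, he.symm⟩
  -- periodicity
  have hper : ∀ k a : ℕ, i ≤ a → t ^ (a + k * (j - i)) = t ^ a := by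
    intro k
    induction k with
    | zero => intro a _; simp
    | succ k ih =>
      intro a ha
      have h1 : a + (k + 1) * (j - i) = (a + (j - i)) + k * (j - i) := by ring
      rw [h1, ih _ (by omega)]
      have h2 : a + (j - i) = j + (a - i) := by omega
      rw [h2, pow_add, ← he, ← pow_add]
      congr 1
      omega
  have hdvd : (j - i) ∣ q.factorial := Nat.dvd_factorial (by omega) (by omega)
  obtain ⟨k, hk⟩ := hdvd
  have hle : q ≤ q.factorial := Nat.self_le_factorial q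
  rw [← pow_add]
  conv_lhs => rw [show q.factorial + q.factorial = q.factorial + k * (j - i) by
    rw [mul_comm k]; omega]
  exact hper k _ (by omega)

/-- powers of an idempotent power -/
theorem idem_mul {M : Type*} [Monoid M] {n : ℕ} (h : ∀ t : M, t ^ n * t ^ n = t ^ n) (k : ℕ)
    (t : M) : t ^ (n * k) * t ^ (n * k) = t ^ (n * k) := by
  rw [pow_mul', h]

theorem idem_prod {A : Type*} [CommRing A] (e e' : A) (h : e * e = e) (h' : e' * e' = e') :
    e * e' * (e' - e) = 0 := by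
  linear_combination e * h' - e' * h

/-- the selection of the exponent at one place -/
theorem sel_one {η τ : ℝ} (hη1 : η < 1) {k : ℕ} (hk : (1 - η) ^ k ≤ η)
    (hτ : 0 ≤ τ) {n₁ n₂ l : ℕ} (hn : n₂ = n₁ * (k * l)) (hl : 0 < l)
    (h1 : ¬ (τ ^ n₁ ≤ η ∨ (1 - η ≤ τ ^ n₁))) : τ ^ n₂ ≤ η := by
  push Not at h1
  rw [hn, pow_mul, pow_mul]
  have h2 : 0 ≤ τ ^ n₁ := by positivity
  have h3 : ((τ ^ n₁) ^ k) ≤ η := by
    refine le_trans ?_ hk
    gcongr
    exact h1.2.le
  have h4 : 0 ≤ (τ ^ n₁) ^ k := by positivity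
  calc ((τ ^ n₁) ^ k) ^ l ≤ (τ ^ n₁) ^ k :=
        pow_le_of_le_one h4 (h3.trans hη1.le) hl.ne'
    _ ≤ η := h3

/-- the selection of the exponent at all places -/
theorem sel {I : Type*} [Fintype I] (hI : Fintype.card I = 2) {η : ℝ}
    (hη1 : η < 1) {k : ℕ} (hk0 : 0 < k) (hk : (1 - η) ^ k ≤ η) (n₀ : ℕ) (τ : I → ℝ)
    (hτ : ∀ i, 0 ≤ τ i) : ∃ e : Fin 3, ∀ i, τ i ^ (n₀ * k ^ (e : ℕ)) ≤ η ∨
      1 - η ≤ τ i ^ (n₀ * k ^ (e : ℕ)) := by
  by_contra hcon
  push Not at hcon
  choose g hg using hcon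
  obtain ⟨a, b, hab, he⟩ := Fintype.exists_ne_map_eq_of_card_lt g (by rw [hI]; simp)
  wlog hlt : (a : ℕ) < b generalizing a b with H
  · exact H b a hab.symm he.symm (by
      rcases lt_or_gt_of_ne (Fin.val_ne_of_ne hab) with h | h
      · exact absurd h hlt
      · exact h)
  have h1 := hg a
  have h2 := hg b
  rw [← he] at h2
  have h3 : n₀ * k ^ (b : ℕ) = (n₀ * k ^ (a : ℕ)) * (k * k ^ ((b : ℕ) - a - 1)) := by
    rw [mul_assoc, ← pow_succ', ← pow_add]
    congr 2
    omega
  have h4 := sel_one hη1 hk (hτ (g a)) h3 (by positivity) (by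
    push Not
    exact h1)
  exact absurd h4 (not_le.2 h2.1)

/-- the local condition at a real place -/
theorem local_cond {η : ℝ} (hη : 0 < η) {n : ℕ} (hn : Even n) {α γ : ℂ} (hα : α.im = 0)
    (hγ : γ.im = 0)
    (h : (min ‖α‖ ‖γ‖ / max ‖α‖ ‖γ‖) ^ n ≤ η ∨ 1 - η ≤ (min ‖α‖ ‖γ‖ / max ‖α‖ ‖γ‖) ^ n) :
    ‖α ^ n‖ * ‖γ ^ n - α ^ n‖ * ‖α ^ n + (γ ^ n - α ^ n)‖ ≤
      2 * η * (max ‖α‖ ‖γ‖ ^ n) ^ 3 := by
  have hα' : α ^ n = ((‖α‖ ^ n : ℝ) : ℂ) := by
    have e1 : α = (α.re : ℂ) := Complex.ext rfl (by simpa using hα)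
    have e2 : ‖α‖ = |α.re| := by
      rw [e1, Complex.norm_real, Real.norm_eq_abs]
      simp
    rw [e2, hn.pow_abs, Complex.ofReal_pow, ← e1]
  have hγ' : γ ^ n = ((‖γ‖ ^ n : ℝ) : ℂ) := by
    have e1 : γ = (γ.re : ℂ) := Complex.ext rfl (by simpa using hγ)
    have e2 : ‖γ‖ = |γ.re| := by
      rw [e1, Complex.norm_real, Real.norm_eq_abs]
      simp
    rw [e2, hn.pow_abs, Complex.ofReal_pow, ← e1]
  rw [add_sub_cancel, hα', hγ', ← Complex.ofReal_sub, Complex.norm_real, Complex.norm_real,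
    Complex.norm_real, Real.norm_of_nonneg (show 0 ≤ ‖α‖ ^ n by positivity),
    Real.norm_of_nonneg (show 0 ≤ ‖γ‖ ^ n by positivity), Real.norm_eq_abs]
  set A := ‖α‖ ^ n with hA
  set B := ‖γ‖ ^ n with hB
  set M := max ‖α‖ ‖γ‖ with hM
  have hM0 : 0 ≤ M := by positivity
  have hA0 : 0 ≤ A := by positivity
  have hB0 : 0 ≤ B := by positivity
  have hAM : A ≤ M ^ n := pow_le_pow_left₀ (norm_nonneg _) (le_max_left _ _) _
  have hBM : B ≤ M ^ n := pow_le_pow_left₀ (norm_nonneg _) (le_max_right _ _) _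
  have hMn : 0 ≤ M ^ n := by positivity
  have hd : |B - A| ≤ M ^ n := abs_sub_le_iff.2 ⟨by linarith, by linarith⟩
  have hd0 : 0 ≤ |B - A| := abs_nonneg _
  rcases hM0.eq_or_lt with hz | hpos
  · -- everything vanishes
    rcases Nat.eq_zero_or_pos n with hn0 | hn0
    · have hAB : B - A = 0 := by rw [hA, hB, hn0]; simp
      rw [hAB, abs_zero, mul_zero, zero_mul]
      positivity
    · have : M ^ n = 0 := by rw [← hz]; exact zero_pow hn0.ne'
      have hA1 : A = 0 := le_antisymm (by linarith) hA0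
      rw [hA1, zero_mul, zero_mul]
      positivity
  · have hMnp : 0 < M ^ n := by positivity
    rw [div_pow, div_le_iff₀ hMnp, le_div_iff₀ hMnp] at h
    have hmin : min ‖α‖ ‖γ‖ ^ n = min A B := by
      rcases le_total ‖α‖ ‖γ‖ with hle | hle
      · have : A ≤ B := pow_le_pow_left₀ (norm_nonneg _) hle _
        rw [min_eq_left hle, min_eq_left this]
      · have : B ≤ A := pow_le_pow_left₀ (norm_nonneg _) hle _
        rw [min_eq_right hle, min_eq_right this]
    have hmax : M ^ n = max A B := by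
      rcases le_total ‖α‖ ‖γ‖ with hle | hle
      · have : A ≤ B := pow_le_pow_left₀ (norm_nonneg _) hle _
        rw [hM, max_eq_right hle, max_eq_right this]
      · have : B ≤ A := pow_le_pow_left₀ (norm_nonneg _) hle _
        rw [hM, max_eq_left hle, max_eq_left this]
    rw [hmin] at h
    rw [hmax] at h hAM hBM hd hMn ⊢
    rcases le_total A B with hle | hle
    · rw [max_eq_right hle] at *
      rw [min_eq_left hle] at h
      rw [abs_of_nonneg (by linarith)]
      rcases h with h | h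
      · calc A * (B - A) * B ≤ (η * B) * B * B := by gcongr; linarith
          _ ≤ 2 * η * B ^ 3 := by nlinarith [pow_nonneg hB0 3, mul_nonneg hη.le (pow_nonneg hB0 3)]
      · calc A * (B - A) * B ≤ B * (η * B) * B := by gcongr; linarith
          _ ≤ 2 * η * B ^ 3 := by nlinarith [pow_nonneg hB0 3, mul_nonneg hη.le (pow_nonneg hB0 3)]
    · rw [max_eq_left hle] at *
      rw [min_eq_right hle] at h
      rw [abs_of_nonpos (by linarith)]
      rcases h with h | h
      · calc A * (-(B - A)) * B ≤ A * A * (η * A) := by gcongr; linarith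
          _ ≤ 2 * η * A ^ 3 := by nlinarith [pow_nonneg hA0 3, mul_nonneg hη.le (pow_nonneg hA0 3)]
      · calc A * (-(B - A)) * B ≤ A * (η * A) * A := by gcongr; linarith
          _ ≤ 2 * η * A ^ 3 := by nlinarith [pow_nonneg hA0 3, mul_nonneg hη.le (pow_nonneg hA0 3)]

section field

open NumberField Module

variable {K : Type} [Field K] [NumberField K]

theorem im_zero (hK : finrank ℚ K = 2) {s : K} (hs : s ^ 2 = 5) (φ : K →+* ℂ) (x : K) :
    (φ x).im = 0 := by
  obtain ⟨u, v, rfl⟩ := Pool.Agent.Y382.Gold.exists_coord hK hs x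
  have h1 : φ s ^ 2 = ((√5 : ℝ) : ℂ) ^ 2 := by
    rw [← map_pow, hs, ← Complex.ofReal_pow, Real.sq_sqrt (by norm_num)]
    simp [map_ofNat]
  have h2 : (φ s).im = 0 := by
    rcases sq_eq_sq_iff_eq_or_eq_neg.1 h1 with h | h
    · rw [h, Complex.ofReal_im]
    · rw [h, Complex.neg_im, Complex.ofReal_im, neg_zero]
  rw [map_add, map_mul, map_ratCast, map_ratCast]
  simp [h2]

theorem card_emb (hK : finrank ℚ K = 2) : Fintype.card (K →+* ℂ) = 2 := by
  rw [Embeddings.card, hK]

end field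

end Pool.Agent.E8helper15.Ico
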