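import Pool.Agent.E8helper15.Ico.Alg
import Pool.Agent.E8helper15.Ico.Rad
import Pool.Agent.E8helper15.Ico.Sel
import Pool.Agent.E8helper15.Ico.Expo

/-! # The reduction of the abc conjecture to icosahedral triples -/

set_option autoImplicit false

namespace Pool.Agent.E8helper15.Ico

open NumberField IsDedekindDomain Module

theorem homW (m : ℕ) (hm : m ≠ 0) (c x y : ℂ) :
    W m (c * x) (c * y) = c ^ (2 * m - 1) * W m x y := by
  unfold W
  have h : ∀ i ∈ Finset.range m, ((c * y) ^ 2) ^ i * ((c * x) ^ 2) ^ (m - 1 - i) =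
      c ^ (2 * m - 2) * ((y ^ 2) ^ i * (x ^ 2) ^ (m - 1 - i)) := by
    intro i hi
    rw [Finset.mem_range] at hi
    have e : 2 * m - 2 = 2 * i + 2 * (m - 1 - i) := by omega
    rw [e, pow_add, pow_mul, pow_mul, mul_pow, mul_pow, mul_pow, mul_pow]
    ring
  rw [Finset.sum_congr rfl h, ← Finset.mul_sum]
  have e2 : 2 * m - 1 = (2 * m - 2) + 1 := by omega
  rw [e2, pow_succ]
  ring

/-- the product of all superfluous factors -/
def Y {R : Type*} [CommRing R] (r : R) (m : ℕ) (a c : R) : R :=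
  1728 * r * W m a c * G r (a ^ (2 * m)) (c ^ (2 * m) - a ^ (2 * m)) *
    T (a ^ (2 * m)) (r * (c ^ (2 * m) - a ^ (2 * m))) *
    H (a ^ (2 * m)) (r * (c ^ (2 * m) - a ^ (2 * m)))

theorem mapY {R S : Type*} [CommRing R] [CommRing S] (φ : R →+* S) (r : R) (m : ℕ) (a c : R) :
    φ (Y r m a c) = Y (φ r) m (φ a) (φ c) := by
  unfold Y
  simp only [map_mul, mapW, mapG, mapT, mapH, map_pow, map_sub, map_ofNat]

theorem Y_upper (ρ : ℂ) (m : ℕ) (hm : m ≠ 0) : ∃ C : ℝ, 0 < C ∧ ∀ q : ℂ × ℂ,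
    ‖Y ρ m q.1 q.2‖ ≤ C * ‖q‖ ^ (120 * m - 1) := by
  refine hom_upper (by omega) ?_ ?_
  · unfold Y W G T H; fun_prop
  · apply hom_of (g := fun x y => Y ρ m x y)
    intro c x y
    simp only [Y]
    have e0 : (c * y) ^ (2 * m) - (c * x) ^ (2 * m) =
        c ^ (2 * m) * (y ^ (2 * m) - x ^ (2 * m)) := by
      rw [mul_pow, mul_pow]; ring
    rw [homW m hm, e0, mul_pow c x, homG, homT, homH]
    have e1 : 120 * m - 1 = (2 * m - 1) + 2 * m * 59 := by omega
    rw [e1, pow_add, pow_mul c (2 * m) 59]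
    ring

theorem q_le (n : ℕ) (q : ℂ × ℂ) :
    ‖q‖ ^ n ≤ 2 * ‖((q.1 ^ n, q.2 ^ n - q.1 ^ n) : ℂ × ℂ)‖ := by
  have h1 : ‖q.1 ^ n‖ ≤ ‖((q.1 ^ n, q.2 ^ n - q.1 ^ n) : ℂ × ℂ)‖ :=
    norm_fst_le ((q.1 ^ n, q.2 ^ n - q.1 ^ n) : ℂ × ℂ)
  have h2 : ‖q.2 ^ n - q.1 ^ n‖ ≤ ‖((q.1 ^ n, q.2 ^ n - q.1 ^ n) : ℂ × ℂ)‖ :=
    norm_snd_le ((q.1 ^ n, q.2 ^ n - q.1 ^ n) : ℂ × ℂ)
  have h3 : ‖q.2 ^ n‖ ≤ ‖q.2 ^ n - q.1 ^ n‖ + ‖q.1 ^ n‖ := by
    have := norm_add_le (q.2 ^ n - q.1 ^ n) (q.1 ^ n)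
    rwa [sub_add_cancel] at this
  have h4 := norm_nonneg ((q.1 ^ n, q.2 ^ n - q.1 ^ n) : ℂ × ℂ)
  rw [Prod.norm_def q]
  rcases le_total ‖q.1‖ ‖q.2‖ with h | h
  · rw [max_eq_right h, ← norm_pow]
    linarith
  · rw [max_eq_left h, ← norm_pow]
    linarith

variable {K : Type} [Field K] [NumberField K]

/-- the height of a triple -/
noncomputable def hgt (a b c : 𝓞 K) : ℝ := ∏ φ : K →+* ℂ, max ‖φ a‖ (max ‖φ b‖ ‖φ c‖)

/-- the height of a pair -/
noncomputable def hh (a c : 𝓞 K) : ℝ := ∏ φ : K →+* ℂ, ‖((φ a, φ c) : ℂ × ℂ)‖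

theorem one_le_prod_norm {a : 𝓞 K} (ha : a ≠ 0) : 1 ≤ ∏ φ : K →+* ℂ, ‖φ a‖ := by
  rw [← absNorm_eq]
  have : Ideal.absNorm (Ideal.span {a}) ≠ 0 := by
    rw [Ne, Ideal.absNorm_eq_zero_iff, Ideal.span_singleton_eq_bot]
    exact ha
  exact_mod_cast Nat.one_le_iff_ne_zero.2 this

theorem one_le_hh {a c : 𝓞 K} (h : IsCoprime a c) : 1 ≤ hh a c := by
  have h0 : a ≠ 0 ∨ c ≠ 0 := by
    by_contra hcon
    push Not at hcon
    rw [hcon.1, hcon.2] at h
    exact not_isCoprime_zero_zero h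
  rcases h0 with ha | hc
  · refine (one_le_prod_norm ha).trans (Finset.prod_le_prod (fun _ _ => norm_nonneg _)
      fun φ _ => ?_)
    exact norm_fst_le ((φ a, φ c) : ℂ × ℂ)
  · refine (one_le_prod_norm hc).trans (Finset.prod_le_prod (fun _ _ => norm_nonneg _)
      fun φ _ => ?_)
    exact norm_snd_le ((φ a, φ c) : ℂ × ℂ)

theorem hgt_le {a b c : 𝓞 K} (hs : a + b + c = 0) :
    hgt a b c ≤ 2 ^ Fintype.card (K →+* ℂ) * hh a c := by
  unfold hgt hh
  rw [← Finset.card_univ, ← Finset.prod_const, ← Finset.prod_mul_distrib]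
  refine Finset.prod_le_prod (fun _ _ => by positivity) fun φ _ => ?_
  have h1 : ‖φ a‖ ≤ ‖((φ a, φ c) : ℂ × ℂ)‖ := norm_fst_le ((φ a, φ c) : ℂ × ℂ)
  have h2 : ‖φ c‖ ≤ ‖((φ a, φ c) : ℂ × ℂ)‖ := norm_snd_le ((φ a, φ c) : ℂ × ℂ)
  have hb : b = -(a + c) := by linear_combination hs
  have h3 : ‖φ b‖ ≤ ‖φ a‖ + ‖φ c‖ := by
    rw [hb]
    push_cast
    rw [map_neg, norm_neg, map_add]
    exact norm_add_le _ _
  have h4 := norm_nonneg ((φ a, φ c) : ℂ × ℂ)
  refine max_le (by linarith) (max_le (by linarith) (by linarith))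

/-- the image of an integer under an embedding -/
def emb (φ : K →+* ℂ) : 𝓞 K →+* ℂ := φ.comp (algebraMap (𝓞 K) K)

omit [NumberField K] in
theorem emb_apply (φ : K →+* ℂ) (a : 𝓞 K) : emb φ a = φ a := rfl

/-- the relation between the triples -/
structure Rel (r : 𝓞 K) (m : ℕ) (a b c g a' b' c' : 𝓞 K) : Prop where
  dvd : g ∣ 1728 * 5 ^ 35
  ha : g * a' = 1728 * F (a ^ (2 * m)) (r * (c ^ (2 * m) - a ^ (2 * m))) ^ 5
  hb : g * b' = -T (a ^ (2 * m)) (r * (c ^ (2 * m) - a ^ (2 * m))) ^ 2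
  hc : g * c' = -H (a ^ (2 * m)) (r * (c ^ (2 * m) - a ^ (2 * m))) ^ 3

theorem big_ne : (1728 * 5 ^ 35 : 𝓞 K) ≠ 0 := by
  have : ((1728 * 5 ^ 35 : ℕ) : 𝓞 K) ≠ 0 := Nat.cast_ne_zero.2 (by positivity)
  exact_mod_cast this

theorem ofNat_ne : (1728 : 𝓞 K) ≠ 0 := by
  have : ((1728 : ℕ) : 𝓞 K) ≠ 0 := Nat.cast_ne_zero.2 (by positivity)
  exact_mod_cast this

theorem Rel.ne {r : 𝓞 K} {m : ℕ} {a b c g a' b' c' : 𝓞 K} (h : Rel r m a b c g a' b' c') :
    g ≠ 0 := by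
  rintro rfl
  exact big_ne (zero_dvd_iff.1 h.dvd)

/-- the lower bound of the height -/
theorem height_lower {r : 𝓞 K} (hr : r ^ 2 + r = 1) (m : ℕ) : ∃ c₀ : ℝ, 0 < c₀ ∧
    ∀ a b c g a' b' c' : 𝓞 K, Rel r m a b c g a' b' c' →
      c₀ * hh a c ^ (120 * m) ≤ hgt a' b' c' := by
  have hr0 : r ≠ 0 := by
    rintro rfl
    norm_num at hr
  have hφr : ∀ φ : K →+* ℂ, emb φ r ≠ 0 := by
    intro φ h0
    have h1 := congrArg (emb φ) hr
    rw [map_add, map_pow, h0, map_one] at h1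
    norm_num at h1
  choose cφ hcφ hlow using fun φ : K →+* ℂ => siz_lower (hφr φ)
  have hD : (1 : ℝ) ≤ ∏ φ : K →+* ℂ, ‖φ ((1728 * 5 ^ 35 : 𝓞 K) : K)‖ :=
    one_le_prod_norm big_ne
  set D : ℝ := ∏ φ : K →+* ℂ, ‖φ ((1728 * 5 ^ 35 : 𝓞 K) : K)‖ with hDdef
  refine ⟨(∏ φ : K →+* ℂ, (cφ φ / 2 ^ 60)) / D, ?_, ?_⟩
  · have : 0 < ∏ φ : K →+* ℂ, (cφ φ / 2 ^ 60) :=
      Finset.prod_pos fun φ _ => div_pos (hcφ φ) (by positivity)
    positivity
  · intro a b c g a' b' c' h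
    have hg : (∏ φ : K →+* ℂ, ‖φ g‖) ≤ D := by
      obtain ⟨d, hd⟩ := h.dvd
      have hd0 : d ≠ 0 := by
        rintro rfl
        rw [mul_zero] at hd
        exact big_ne hd
      have h1 : D = (∏ φ : K →+* ℂ, ‖φ g‖) * ∏ φ : K →+* ℂ, ‖φ d‖ := by
        rw [hDdef, ← Finset.prod_mul_distrib, hd]
        refine Finset.prod_congr rfl fun φ _ => ?_
        push_cast
        rw [map_mul, norm_mul]
      rw [h1]
      exact le_mul_of_one_le_right (Finset.prod_nonneg fun _ _ => norm_nonneg _)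
        (one_le_prod_norm hd0)
    have hgpos : 0 < ∏ φ : K →+* ℂ, ‖φ g‖ := by
      have := one_le_prod_norm h.ne
      linarith
    -- the product formula
    have h2 : (∏ φ : K →+* ℂ, (cφ φ / 2 ^ 60)) * hh a c ^ (120 * m) ≤
        (∏ φ : K →+* ℂ, ‖φ g‖) * hgt a' b' c' := by
      unfold hh hgt
      rw [← Finset.prod_pow, ← Finset.prod_mul_distrib, ← Finset.prod_mul_distrib]
      refine Finset.prod_le_prod (fun φ _ => by
        have := hcφ φ
        positivity) fun φ _ => ?_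
      have h3 := hlow φ (φ a ^ (2 * m), φ c ^ (2 * m) - φ a ^ (2 * m))
      have h4 := q_le (2 * m) ((φ a, φ c) : ℂ × ℂ)
      simp only at h4
      set p : ℂ × ℂ := (φ a ^ (2 * m), φ c ^ (2 * m) - φ a ^ (2 * m)) with hp
      have h5 : siz (emb φ r) p = ‖φ g‖ * max ‖φ a'‖ (max ‖φ b'‖ ‖φ c'‖) := by
        have e1 := congrArg (emb φ) h.ha
        have e2 := congrArg (emb φ) h.hb
        have e3 := congrArg (emb φ) h.hc
        simp only [map_mul, map_neg, map_pow, map_sub, mapF, mapT, mapH, map_ofNat] at e1 e2 e3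
        rw [mul_max_of_nonneg _ _ (norm_nonneg _), mul_max_of_nonneg _ _ (norm_nonneg _),
          ← norm_mul, ← norm_mul, ← norm_mul]
        unfold siz
        simp only [emb_apply] at e1 e2 e3 ⊢
        rw [hp, ← e1, ← e2, ← e3]
      rw [← h5]
      refine le_trans ?_ h3
      have h6 : ‖((φ a, φ c) : ℂ × ℂ)‖ ^ (120 * m) = (‖((φ a, φ c) : ℂ × ℂ)‖ ^ (2 * m)) ^ 60 := by
        rw [← pow_mul]
        congr 1
        ring
      rw [h6]
      calc cφ φ / 2 ^ 60 * (‖((φ a, φ c) : ℂ × ℂ)‖ ^ (2 * m)) ^ 60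
          ≤ cφ φ / 2 ^ 60 * (2 * ‖p‖) ^ 60 := by
            have := hcφ φ
            gcongr
        _ = cφ φ * ‖p‖ ^ 60 := by
            rw [mul_pow]
            field_simp
    rw [div_mul_eq_mul_div, div_le_iff₀ (by linarith)]
    calc (∏ φ : K →+* ℂ, (cφ φ / 2 ^ 60)) * hh a c ^ (120 * m)
        ≤ (∏ φ : K →+* ℂ, ‖φ g‖) * hgt a' b' c' := h2
      _ ≤ D * hgt a' b' c' := by
          have : 0 ≤ hgt a' b' c' := Finset.prod_nonneg fun _ _ => by positivity
          gcongr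
      _ = hgt a' b' c' * D := mul_comm _ _

/-- the upper bound of the radical -/
theorem rad_upper {r : 𝓞 K} (hr : r ^ 2 + r = 1) {m : ℕ} (hm : m ≠ 0) : ∃ C : ℝ, 0 < C ∧
    ∀ a b c g a' b' c' : 𝓞 K, a + b + c = 0 → IsCoprime a c → Rel r m a b c g a' b' c' →
      rd (a' * b' * c') ≤ C * (rd (a * b * c) * hh a c ^ (120 * m - 1)) := by
  have hr0 : r ≠ 0 := by
    rintro rfl
    norm_num at hr
  choose Cφ hCφ hup using fun φ : K →+* ℂ => Y_upper (emb φ r) m hm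
  refine ⟨max (∏ φ : K →+* ℂ, Cφ φ) (rd (0 : 𝓞 K)), ?_, ?_⟩
  · exact lt_max_of_lt_left (Finset.prod_pos fun φ _ => hCφ φ)
  · intro a b c g a' b' c' hs hco h
    have hh1 := one_le_hh hco
    have hrd := one_le_rd (a * b * c)
    have hbase : 1 ≤ rd (a * b * c) * hh a c ^ (120 * m - 1) :=
      one_le_mul_of_one_le_of_one_le hrd (one_le_pow₀ hh1)
    set x := a ^ (2 * m) with hx
    set v := c ^ (2 * m) - a ^ (2 * m) with hv
    have e : g ^ 3 * (a' * b' * c') = 1728 * F x (r * v) ^ 5 * (-T x (r * v) ^ 2) *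
        (-H x (r * v) ^ 3) := by
      rw [← h.ha, ← h.hb, ← h.hc]; ring
    have hF := facF hr hs m
    rw [← hx, ← hv] at hF
    by_cases hz : a' * b' * c' = 0
    · rw [hz]
      calc rd (0 : 𝓞 K) ≤ max (∏ φ : K →+* ℂ, Cφ φ) (rd (0 : 𝓞 K)) := le_max_right _ _
        _ ≤ _ := le_mul_of_one_le_right (by
            have := one_le_rd (0 : 𝓞 K)
            exact le_trans (by linarith) (le_max_right _ _)) hbase
    · have hprod : 1728 * F x (r * v) ^ 5 * (-T x (r * v) ^ 2) * (-H x (r * v) ^ 3) ≠ 0 := by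
        rw [← e]
        exact mul_ne_zero (pow_ne_zero _ h.ne) hz
      have hF0 : F x (r * v) ≠ 0 := by
        intro h0
        apply hprod
        rw [h0]
        ring
      have hT0 : T x (r * v) ≠ 0 := by
        intro h0
        apply hprod
        rw [h0]
        ring
      have hH0 : H x (r * v) ≠ 0 := by
        intro h0
        apply hprod
        rw [h0]
        ring
      rw [hF] at hF0
      have hG0 : G r x v ≠ 0 := right_ne_zero_of_mul hF0
      have h1 : a ^ (2 * m) * (b * W m a c) * c ^ (2 * m) ≠ 0 :=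
        right_ne_zero_of_mul (left_ne_zero_of_mul hF0)
      have h2 := left_ne_zero_of_mul h1
      have ha0 : a ≠ 0 := fun h0 => (left_ne_zero_of_mul h2) (by
        rw [h0, zero_pow (by omega)])
      have hc0 : c ≠ 0 := fun h0 => (right_ne_zero_of_mul h1) (by
        rw [h0, zero_pow (by omega)])
      have hb0 : b ≠ 0 := left_ne_zero_of_mul (right_ne_zero_of_mul h2)
      have hW0 : W m a c ≠ 0 := right_ne_zero_of_mul (right_ne_zero_of_mul h2)
      have hY0 : Y r m a c ≠ 0 := by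
        unfold Y
        exact mul_ne_zero (mul_ne_zero (mul_ne_zero (mul_ne_zero (mul_ne_zero ofNat_ne hr0) hW0)
          hG0) hT0) hH0
      have habc : a * b * c ≠ 0 := mul_ne_zero (mul_ne_zero ha0 hb0) hc0
      have hmono : rd (a' * b' * c') ≤ rd (a * b * c * Y r m a c) := by
        refine rd_mono hz (mul_ne_zero habc hY0) ?_
        intro P hP
        rw [← Ideal.Quotient.eq_zero_iff_mem] at hP ⊢
        by_contra hcon
        have hdom : IsDomain (𝓞 K ⧸ P.asIdeal) := (Ideal.Quotient.isDomain_iff_prime _).2 P.isPrime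
        have e2 := congrArg (Ideal.Quotient.mk P.asIdeal) e
        rw [map_mul, hP, mul_zero, hF] at e2
        unfold Y at hcon
        simp only [map_mul, mul_eq_zero, not_or] at hcon
        obtain ⟨⟨⟨k1, k2⟩, k3⟩, ⟨⟨⟨⟨k4, k5⟩, k6⟩, k7⟩, k8⟩, k9⟩ := hcon
        rw [← hx, ← hv] at k7 k8 k9
        have e2' := e2.symm
        clear e2
        simp only [map_mul, map_neg, map_pow] at e2'
        rw [mul_eq_zero, mul_eq_zero, mul_eq_zero, neg_eq_zero, neg_eq_zero] at e2'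
        have e2 := e2'
        rcases e2 with ((e2 | e2) | e2) | e2
        · exact k4 e2
        · have e3 := eq_zero_of_pow_eq_zero e2
          simp only [mul_eq_zero, hx, map_pow] at e3
          rcases e3 with (e3 | ((e3 | (e3 | e3)) | e3)) | e3
          · exact k5 e3
          · exact k1 (eq_zero_of_pow_eq_zero e3)
          · exact k2 e3
          · exact k6 e3
          · exact k3 (eq_zero_of_pow_eq_zero e3)
          · exact k7 e3
        · exact k8 (eq_zero_of_pow_eq_zero e2)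
        · exact k9 (eq_zero_of_pow_eq_zero e2)
      have hYn : rd (Y r m a c) ≤ (∏ φ : K →+* ℂ, Cφ φ) * hh a c ^ (120 * m - 1) := by
        refine (rd_le_norm hY0).trans ?_
        unfold hh
        rw [← Finset.prod_pow, ← Finset.prod_mul_distrib]
        refine Finset.prod_le_prod (fun _ _ => norm_nonneg _) fun φ _ => ?_
        have h3 := hup φ (φ a, φ c)
        have h4 : φ ((Y r m a c : 𝓞 K) : K) = Y (emb φ r) m (φ a) (φ c) := mapY (emb φ) r m a c
        rw [h4]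
        exact h3
      calc rd (a' * b' * c') ≤ rd (a * b * c * Y r m a c) := hmono
        _ ≤ rd (a * b * c) * rd (Y r m a c) := rd_mul_le habc hY0
        _ ≤ rd (a * b * c) * ((∏ φ : K →+* ℂ, Cφ φ) * hh a c ^ (120 * m - 1)) := by
            gcongr
        _ = (∏ φ : K →+* ℂ, Cφ φ) * (rd (a * b * c) * hh a c ^ (120 * m - 1)) := by ring
        _ ≤ max (∏ φ : K →+* ℂ, Cφ φ) (rd (0 : 𝓞 K)) *
            (rd (a * b * c) * hh a c ^ (120 * m - 1)) := by
            gcongr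
            exact le_max_left _ _

end Pool.Agent.E8helper15.Ico
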